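import Pool.Agent.Work.MP_b10815_co_helper58.Geo

set_option autoImplicit false

namespace Pool.Agent.Work.MP_b10815_co_helper58

open Set

lemma RowLe.refl {S : Set (ℤ × ℤ)} {y s : ℤ} (h : RowLe S (-y) s) :
    RowLe {p : ℤ × ℤ | (p.1, -p.2) ∈ S} y s := by
  intro p
  obtain ⟨i, h1, h2, h3⟩ := h p
  exact ⟨i, h1, h2, h3⟩

lemma RowLe.shear {S : Set (ℤ × ℤ)} {y s : ℤ} (h : RowLe S y s) (c : ℤ) :
    RowLe {p : ℤ × ℤ | (p.1 + c * p.2, p.2) ∈ S} y s := by
  intro p
  obtain ⟨i, h1, h2, h3⟩ := h (p + c * y)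
  refine ⟨i, h1, h2, ?_⟩
  simp only [mem_ofPred_eq]
  rw [show p + i + c * y = p + c * y + i by ring]
  exact h3

/-- `l = N = 4`, rows from `-2` to `4`. -/
lemma geo42 {S : Set (ℤ × ℤ)} (G : Geo S 4 4 2 4) (h1 : ∀ x : ℤ, (x, 1) ∈ S ↔ 1 ≤ x ∧ x ≤ 3)
    (h2 : RowLe S (-1) 2) : False := by
  obtain ⟨xb, hxb⟩ := G.apx
  obtain ⟨xa, hxa⟩ := G.apx'
  have G' := G.refl
  have r1 : RowLe {p : ℤ × ℤ | (p.1, -p.2) ∈ S} 1 2 := h2.refl
  have hxa' : (xa, (2 : ℤ)) ∈ {p : ℤ × ℤ | (p.1, -p.2) ∈ S} := hxa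
  have r2 : ¬ RowLe {p : ℤ × ℤ | (p.1, -p.2) ∈ S} 1 (2 - 1) := by
    intro h
    have := G'.ineq hxa' (by norm_num) (by norm_num) h
    omega
  obtain ⟨q, hq⟩ := G'.row_form (by norm_num) r1 r2
  have hq' : ∀ x : ℤ, (x, (-1 : ℤ)) ∈ S ↔ q ≤ x ∧ x ≤ q + 1 := by
    intro x
    have := hq x
    simp only [mem_ofPred_eq] at this
    rw [this]
    constructor <;> intro h <;> omega
  have cls : ∀ x y : ℤ, (x, y) ∈ S → (1 ≤ y ∧ 1 ≤ x ∧ x ≤ 3) ∨ (y = 0 ∧ 0 ≤ x ∧ x ≤ 4) ∨
      (y = -1 ∧ q ≤ x ∧ x ≤ q + 1) ∨ (y = -2 ∧ x = 2 * q - 1) := by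
    intro x y hxy
    have hb := G.bot _ hxy
    simp only at hb
    rcases lt_trichotomy y 0 with h | h | h
    · have hy : y = -1 ∨ y = -2 := by omega
      rcases hy with rfl | rfl
      · right; right; left; exact ⟨rfl, (hq' x).1 hxy⟩
      · right; right; right
        have hm : (x, (2 : ℤ)) ∈ {p : ℤ × ℤ | (p.1, -p.2) ∈ S} := hxy
        have e1 := G'.R1 hm (by norm_num) (p := q) (fun x' hx' => ((hq x').1 hx').1)
        have e2 := G'.R1' hm (by norm_num) (q := q + 1)
          (fun x' hx' => by have := ((hq x').1 hx').2; omega)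
        exact ⟨rfl, by omega⟩
    · subst h
      right; left
      exact ⟨rfl, G.row0_le hxy⟩
    · left
      have e1 := G.R1 hxy (by omega) (p := 1) (fun x' hx' => ((h1 x').1 hx').1)
      have e2 := G.R1' hxy (by omega) (q := 3) (fun x' hx' => ((h1 x').1 hx').2)
      have e3 : (1 - 1 : ℤ) * y = 0 := by ring
      have e4 : (4 - 1 - 3 : ℤ) * y = 0 := by ring
      omega
  have hxa2 : xa = 2 * q - 1 := by
    rcases cls xa (-2) hxa with h | h | h | h <;> omega
  have hxb2 : 1 ≤ xb ∧ xb ≤ 3 := by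
    rcases cls xb 4 hxb with h | h | h | h <;> omega
  have q0 : 0 ≤ q := by
    by_contra hc
    have hm : ((-1, 0) : ℤ × ℤ) ∈ S := by
      apply G.lc.three (-1, 0) 1 2 (-xb - 4 * q - 1) hxb hxa G.o (by norm_num) (by norm_num)
        (by omega) (by omega)
      · simp only; rw [hxa2]; ring
      · simp only; ring
    have := G.row0_le hm
    omega
  have q3 : q ≤ 3 := by
    by_contra hc
    have hm : ((5, 0) : ℤ × ℤ) ∈ S := by
      apply G.lc.three (5, 0) 1 2 (xb + 4 * q - 17) hxb hxa G.ol (by norm_num) (by norm_num)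
        (by omega) (by omega)
      · simp only; rw [hxa2]; ring
      · simp only; ring
    have := G.row0_le hm
    omega
  have hs : ∀ c, (q = 0 → c = -1) → (1 ≤ q → c = 0) → False := by
    intro c hc1 hc2
    have := G.bad 1 0 c 5 (by simp) (by
      rintro ⟨x, y⟩ hp
      simp only
      rcases cls x y hp with h | h | h | h <;> omega)
    omega
  by_cases h : q = 0
  · exact hs (-1) (fun _ => rfl) (fun _ => by omega)
  · exact hs 0 (fun _ => by omega) (fun _ => rfl)

/-- `l = N = 4`, rows from `-3` to `3`. -/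
lemma geo33 {S : Set (ℤ × ℤ)} (G : Geo S 4 4 3 3) (h1 : ∀ x : ℤ, (x, 1) ∈ S ↔ 1 ≤ x ∧ x ≤ 3)
    {c : ℤ} (h2 : ∀ x : ℤ, (x, -1) ∈ S ↔ 1 + c ≤ x ∧ x ≤ 3 + c) : False := by
  obtain ⟨xb, hxb⟩ := G.apx
  obtain ⟨xa, hxa⟩ := G.apx'
  have G' := G.refl
  have cls : ∀ x y : ℤ, (x, y) ∈ S → (y = 3 ∧ 1 ≤ x ∧ x ≤ 3) ∨ (y = 2 ∧ 1 ≤ x ∧ x ≤ 3) ∨
      (y = 1 ∧ 1 ≤ x ∧ x ≤ 3) ∨ (y = 0 ∧ 0 ≤ x ∧ x ≤ 4) ∨
      (y = -1 ∧ 1 + c ≤ x ∧ x ≤ 3 + c) ∨ (y = -2 ∧ 1 + 2 * c ≤ x ∧ x ≤ 3 + 2 * c) ∨
      (y = -3 ∧ 1 + 3 * c ≤ x ∧ x ≤ 3 + 3 * c) := by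
    intro x y hxy
    have hb := G.bot _ hxy
    have ht := G.top _ hxy
    simp only at hb ht
    have hlow : ∀ y' : ℤ, 1 ≤ y' → (x, -y') ∈ S → (1 + c - 1) * y' + 1 ≤ x ∧
        (4 - 1 - (3 + c)) * y' + 1 ≤ 4 - x := by
      intro y' hy' hm
      have hm' : (x, y') ∈ {p : ℤ × ℤ | (p.1, -p.2) ∈ S} := hm
      exact ⟨G'.R1 hm' hy' (p := 1 + c) (fun x' hx' => ((h2 x').1 hx').1),
        G'.R1' hm' hy' (q := 3 + c) (fun x' hx' => ((h2 x').1 hx').2)⟩
    rcases lt_trichotomy y 0 with h | h | h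
    · have hy : y = -1 ∨ y = -2 ∨ y = -3 := by omega
      rcases hy with rfl | rfl | rfl
      · have := (h2 x).1 hxy; omega
      · have := hlow 2 (by norm_num) hxy; omega
      · have := hlow 3 (by norm_num) hxy; omega
    · subst h
      have := G.row0_le hxy; omega
    · have e1 := G.R1 hxy (by omega) (p := 1) (fun x' hx' => ((h1 x').1 hx').1)
      have e2 := G.R1' hxy (by omega) (q := 3) (fun x' hx' => ((h1 x').1 hx').2)
      have e3 : (1 - 1 : ℤ) * y = 0 := by ring
      have e4 : (4 - 1 - 3 : ℤ) * y = 0 := by ring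
      omega
  -- opposite apexes
  have opp1 : ∀ x x' : ℤ, (x, 3) ∈ S → (x', -3) ∈ S → -1 ≤ x + x' := by
    intro x x' hx hx'
    by_contra hc
    have hm : ((-1, 0) : ℤ × ℤ) ∈ S := by
      apply G.lc.three (-1, 0) 1 1 (-x - x' - 2) hx hx' G.o (by norm_num) (by norm_num)
        (by omega) (by omega)
      · simp only; ring
      · simp only; ring
    have := G.row0_le hm
    omega
  have opp2 : ∀ x x' : ℤ, (x, 3) ∈ S → (x', -3) ∈ S → x + x' ≤ 9 := by
    intro x x' hx hx'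
    by_contra hc
    have hm : ((5, 0) : ℤ × ℤ) ∈ S := by
      apply G.lc.three (5, 0) 1 1 (x + x' - 10) hx hx' G.ol (by norm_num) (by norm_num)
        (by omega) (by omega)
      · simp only; ring
      · simp only; ring
    have := G.row0_le hm
    omega
  have hxb2 := cls xb 3 hxb
  have hxa2 := cls xa (-3) hxa
  have o1 := opp1 xb xa hxb hxa
  have o2 := opp2 xb xa hxb hxa
  have c1 : -2 ≤ c := by omega
  have c2 : c ≤ 2 := by omega
  have hcc : c = -2 ∨ c = -1 ∨ c = 0 ∨ c = 1 ∨ c = 2 := by omega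
  rcases hcc with hc | hc | hc | hc | hc
  · have := G.bad 1 (-1) (-1) 5 (by simp) (by
      rintro ⟨x, y⟩ hp
      simp only
      rcases cls x y hp with h | h | h | h | h | h | h
      · have := opp1 x xa (by rw [← h.1]; exact hp) hxa; omega
      · omega
      · omega
      · omega
      · omega
      · omega
      · have := opp1 xb x hxb (by rw [← h.1]; exact hp); omega)
    omega
  · by_cases h13 : ((1, 3) : ℤ × ℤ) ∈ S
    · have hno : ((-2, -3) : ℤ × ℤ) ∉ S := by
        intro hm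
        have h01 : ((0, 1) : ℤ × ℤ) ∈ S :=
          G.lc.three (0, 1) 2 1 0 h13 hm hm (by norm_num) (by norm_num) (by norm_num)
            (by norm_num) (by norm_num) (by norm_num)
        have := (h1 0).1 h01
        omega
      have := G.bad 1 0 (-1) 5 (by simp) (by
        rintro ⟨x, y⟩ hp
        simp only
        have hx : ¬ (x = -2 ∧ y = -3) := by
          rintro ⟨rfl, rfl⟩; exact hno hp
        rcases cls x y hp with h | h | h | h | h | h | h <;> omega)
      omega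
    · have := G.bad 1 (-1) (-1) 5 (by simp) (by
        rintro ⟨x, y⟩ hp
        simp only
        have hx : ¬ (x = 1 ∧ y = 3) := by
          rintro ⟨rfl, rfl⟩; exact h13 hp
        rcases cls x y hp with h | h | h | h | h | h | h <;> omega)
      omega
  · have := G.bad 1 0 0 4 (by simp) (by
      rintro ⟨x, y⟩ hp
      simp only
      rcases cls x y hp with h | h | h | h | h | h | h <;> omega)
    omega
  · by_cases h33 : ((3, 3) : ℤ × ℤ) ∈ S
    · have hno : ((6, -3) : ℤ × ℤ) ∉ S := by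
        intro hm
        have h01 : ((4, 1) : ℤ × ℤ) ∈ S :=
          G.lc.three (4, 1) 2 1 0 h33 hm hm (by norm_num) (by norm_num) (by norm_num)
            (by norm_num) (by norm_num) (by norm_num)
        have := (h1 4).1 h01
        omega
      have := G.bad 1 0 0 5 (by simp) (by
        rintro ⟨x, y⟩ hp
        simp only
        have hx : ¬ (x = 6 ∧ y = -3) := by
          rintro ⟨rfl, rfl⟩; exact hno hp
        rcases cls x y hp with h | h | h | h | h | h | h <;> omega)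
      omega
    · have := G.bad 1 1 0 5 (by simp) (by
        rintro ⟨x, y⟩ hp
        simp only
        have hx : ¬ (x = 3 ∧ y = 3) := by
          rintro ⟨rfl, rfl⟩; exact h33 hp
        rcases cls x y hp with h | h | h | h | h | h | h <;> omega)
      omega
  · have := G.bad 1 1 0 5 (by simp) (by
      rintro ⟨x, y⟩ hp
      simp only
      rcases cls x y hp with h | h | h | h | h | h | h
      · have := opp2 x xa (by rw [← h.1]; exact hp) hxa; omega
      · omega
      · omega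
      · omega
      · omega
      · omega
      · have := opp2 xb x hxb (by rw [← h.1]; exact hp); omega)
    omega

/-- `l = N + 1`, only row `0` horizontal. -/
lemma geoC {S : Set (ℤ × ℤ)} {l N a b : ℤ} (G : Geo S l N a b) (hlN : l = N + 1) (hN : 3 ≤ N)
    (hb : 2 ≤ b) (ha : 1 ≤ a) (hX : (a + 1) * (l - 1 - b) + (b - 1) * (l - 1 - 2 * a) ≤ 0)
    (hX' : (l - 1) * (a + b) ≤ (a + 1) + (b - 1) * (3 * a + 1))
    (h1 : ∀ x : ℤ, (x, 1) ∈ S ↔ 1 ≤ x ∧ x ≤ l - 2)
    {c : ℤ} (h2 : ∀ x : ℤ, (x, -1) ∈ S ↔ 1 + c ≤ x ∧ x ≤ l - 2 + c) : False := by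
  obtain ⟨xb, hxb⟩ := G.apx
  obtain ⟨xa, hxa⟩ := G.apx'
  have G' := G.refl
  have up : ∀ x y : ℤ, 1 ≤ y → (x, y) ∈ S → 1 ≤ x ∧ x ≤ l - 1 - y := by
    intro x y hy hxy
    have e1 := G.R1 hxy (by omega) (p := 1) (fun x' hx' => ((h1 x').1 hx').1)
    have e2 := G.R1' hxy (by omega) (q := l - 2) (fun x' hx' => ((h1 x').1 hx').2)
    constructor
    · linarith
    · linarith
  have low : ∀ x y : ℤ, 1 ≤ y → (x, -y) ∈ S → 1 + c * y ≤ x ∧ x ≤ l - 1 - y + c * y := by
    intro x y hy hxy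
    have hm' : (x, y) ∈ {p : ℤ × ℤ | (p.1, -p.2) ∈ S} := hxy
    have e1 := G'.R1 hm' hy (p := 1 + c) (fun x' hx' => ((h2 x').1 hx').1)
    have e2 := G'.R1' hm' hy (q := l - 2 + c) (fun x' hx' => ((h2 x').1 hx').2)
    constructor
    · linarith
    · linarith
  have low' : ∀ x y : ℤ, y < 0 → (x, y) ∈ S → 1 + c * (-y) ≤ x ∧ x ≤ l - 1 - (-y) + c * (-y) := by
    intro x y hy hxy
    apply low x (-y) (by omega)
    rw [neg_neg]; exact hxy
  have u1 := up xb b (by omega) hxb
  have u2 := low xa a ha hxa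
  have m11 : ((1, 1) : ℤ × ℤ) ∈ S := (h1 1).2 (by omega)
  have hcases : c ≤ -1 ∨ c = 0 ∨ c = 1 ∨ c = 2 ∨ 3 ≤ c := by omega
  rcases hcases with hc | hc | hc | hc | hc
  · -- the point `(0,1)`
    have k1 : xa ≤ l - 1 - 2 * a := by nlinarith
    have k2 : (a + 1) * xb + (b - 1) * xa ≤ 0 := by
      have := mul_le_mul_of_nonneg_left u1.2 (by omega : (0 : ℤ) ≤ a + 1)
      have := mul_le_mul_of_nonneg_left k1 (by omega : (0 : ℤ) ≤ b - 1)
      linarith
    have h01 : ((0, 1) : ℤ × ℤ) ∈ S := by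
      apply G.lc.three (0, 1) (a + 1) (b - 1) (-((a + 1) * xb + (b - 1) * xa)) hxb hxa m11
        (by omega) (by omega) (by omega) (by omega)
      · simp only; ring
      · simp only; ring
    have := (h1 0).1 h01
    omega
  · subst hc
    have := G.bad 1 0 0 l (by simp) (by
      rintro ⟨x, y⟩ hp
      simp only
      rcases lt_trichotomy y 0 with h | h | h
      · have := low' x y h hp; omega
      · subst h; have := G.row0_le hp; omega
      · have := up x y (by omega) hp; omega)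
    omega
  · subst hc
    have := G.bad 1 0 0 l (by simp) (by
      rintro ⟨x, y⟩ hp
      simp only
      rcases lt_trichotomy y 0 with h | h | h
      · have := low' x y h hp; omega
      · subst h; have := G.row0_le hp; omega
      · have := up x y (by omega) hp; omega)
    omega
  · subst hc
    have := G.bad 1 1 0 l (by simp) (by
      rintro ⟨x, y⟩ hp
      simp only
      rcases lt_trichotomy y 0 with h | h | h
      · have := low' x y h hp; omega
      · subst h; have := G.row0_le hp; omega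
      · have := up x y (by omega) hp; omega)
    omega
  · have k1 : 3 * a + 1 ≤ xa := by nlinarith
    have k2 : (l - 1) * (a + b) ≤ (a + 1) * xb + (b - 1) * xa := by
      have := mul_le_mul_of_nonneg_left u1.1 (by omega : (0 : ℤ) ≤ a + 1)
      have := mul_le_mul_of_nonneg_left k1 (by omega : (0 : ℤ) ≤ b - 1)
      linarith
    have hl1 : ((l - 1, 1) : ℤ × ℤ) ∈ S := by
      apply G.lc.three (l - 1, 1) ((l - 2) * (a + 1)) ((l - 2) * (b - 1))
        ((a + 1) * xb + (b - 1) * xa - (l - 1) * (a + b)) hxb hxa m11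
      · exact mul_nonneg (by omega) (by omega)
      · exact mul_nonneg (by omega) (by omega)
      · omega
      · have : 0 < (l - 2) * (a + 1) := mul_pos (by omega) (by omega)
        have : 0 ≤ (l - 2) * (b - 1) := mul_nonneg (by omega) (by omega)
        omega
      · simp only; ring
      · simp only; ring
    have := (h1 (l - 1)).1 hl1
    omega

end Pool.Agent.Work.MP_b10815_co_helper58
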