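import Pool.Agent.Work.MP_b10815_co_helper58.Cases

set_option autoImplicit false

namespace Pool.Agent.Work.MP_b10815_co_helper58

open Set

/-- A normalised counterexample together with the combinatorial facts about the covering lines:
`k` of them are horizontal, `m` are not, `unc y` says that row `y` is not one of the horizontal
lines. -/
structure Cfg (S : Set (ℤ × ℤ)) (l N k m : ℤ) (unc : ℤ → Prop) (a b : ℤ) : Prop
    extends Geo S l N a b where
  hN : 2 ≤ N
  hNl : N ≤ l
  hkm : k + m = N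
  hm : 0 ≤ m
  row : ∀ y, unc y → RowLe S y m
  cnt : ∀ R : Finset ℤ, (∀ y ∈ R, ¬ unc y) → (R.card : ℤ) ≤ k
  u0 : ¬ unc 0
  col : ∀ x0 y0 z1 z2 : ℤ, z2 * z2 = 1 →
    (∀ s, 0 ≤ s → s ≤ l → (x0 + s * z1, y0 + s * z2) ∈ S) →
    ∀ y, unc y → (∀ s, 0 ≤ s → s ≤ l → y0 + s * z2 ≠ y) → RowLe S y (m - 1)
  one : m = 1 → ∀ p q r : ℤ × ℤ, p ∈ S → q ∈ S → r ∈ S → unc p.2 → unc q.2 → unc r.2 →
    (p.1 - q.1) * (q.2 - r.2) = (p.2 - q.2) * (q.1 - r.1)
  flat : ∃ w : ℤ, 5 * N < 3 * (w + 1) ∧ 3 * w < 4 * (l + 1)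

namespace Cfg

variable {S : Set (ℤ × ℤ)} {l N k m a b : ℤ} {unc : ℤ → Prop}

lemma refl (C : Cfg S l N k m unc a b) :
    Cfg {p : ℤ × ℤ | (p.1, -p.2) ∈ S} l N k m (fun y => unc (-y)) b a where
  toGeo := C.toGeo.refl
  hN := C.hN
  hNl := C.hNl
  hkm := C.hkm
  hm := C.hm
  row := fun y hy => (C.row (-y) hy).refl
  cnt := by
    intro R hR
    have h1 := C.cnt (R.image (fun y => -y)) (by
      intro y hy
      obtain ⟨z, hz, rfl⟩ := Finset.mem_image.mp hy
      exact hR z hz)
    rwa [Finset.card_image_of_injective _ neg_injective] at h1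
  u0 := by simpa using C.u0
  col := by
    intro x0 y0 z1 z2 hz hs y hy hne
    apply RowLe.refl
    apply C.col x0 (-y0) z1 (-z2) (by linarith) ?_ (-y) hy
    · intro s h0 h1 h2
      apply hne s h0 h1
      linarith
    · intro s h0 h1
      have := hs s h0 h1
      simp only [mem_ofPred_eq] at this
      convert this using 2
      ring
  one := by
    intro hm p q r hp hq hr up uq ur
    have := C.one hm (p.1, -p.2) (q.1, -q.2) (r.1, -r.2) hp hq hr up uq ur
    simp only at this
    linarith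
  flat := C.flat

/-- The first row above which is not covered. -/
lemma exists_J (C : Cfg S l N k m unc a b) : ∃ J : ℤ, 1 ≤ J ∧ J ≤ b + 1 ∧
    (∀ y, 1 ≤ y → y < J → ¬ unc y) ∧ (J ≤ b → unc J) ∧ b * (l - 1 - m) + 2 ≤ l * J := by
  classical
  have hb := C.b0
  have hl := C.hl
  have hm := C.hm
  by_cases h : ∃ n : ℕ, 1 ≤ (n : ℤ) ∧ (n : ℤ) ≤ b ∧ unc n
  · obtain ⟨h1, h2, h3⟩ := Nat.find_spec h
    refine ⟨Nat.find h, h1, by omega, ?_, fun _ => h3, ?_⟩
    · intro y hy1 hy2 hu
      have := Nat.find_min' h (m := y.toNat) (by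
        rw [Int.toNat_of_nonneg (by omega)]
        exact ⟨hy1, by omega, hu⟩)
      omega
    · obtain ⟨x, hx⟩ := C.apx
      exact C.toGeo.ineq hx h1 h2 (C.row _ h3)
  · push Not at h
    refine ⟨b + 1, by omega, le_refl _, ?_, fun h' => by omega, ?_⟩
    · intro y hy1 hy2 hu
      apply h y.toNat
      · rw [Int.toNat_of_nonneg (by omega)]; exact hy1
      · rw [Int.toNat_of_nonneg (by omega)]; omega
      · rw [Int.toNat_of_nonneg (by omega)]; exact hu
    · nlinarith [mul_nonneg hb hm]

lemma wid (C : Cfg S l N k m unc a b) : 5 * N < 3 * (a + b + 1) := by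
  apply C.bad 0 1 (-a) (a + b) (by simp)
  intro p hp
  have h1 := C.top p hp
  have h2 := C.bot p hp
  constructor <;> linarith

lemma unc_ne (C : Cfg S l N k m unc a b) (hk : k = 1) {y : ℤ} (hy : y ≠ 0) : unc y := by
  by_contra h
  have := C.cnt {0, y} (by
    intro z hz
    rw [Finset.mem_insert, Finset.mem_singleton] at hz
    rcases hz with rfl | rfl
    · exact C.u0
    · exact h)
  rw [Finset.card_pair hy.symm] at this
  push_cast at this
  omega

lemma colS (C : Cfg S l N k m unc a b) {x y t : ℤ} (h : (x, y) ∈ S) (hy : 0 < y)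
    (ht0 : 0 ≤ t) (htl : t ≤ l) {z : ℤ} (hx : x = t + z * y) {s : ℤ} (hs : 0 ≤ s)
    (hsy : s ≤ y) : (t + s * z, s) ∈ S := by
  have h0 : ((t, 0) : ℤ × ℤ) ∈ S := C.row0_mem ht0 htl
  apply C.lc.three (t + s * z, s) (y - s) s 0 h0 h h (by omega) hs (by norm_num) (by omega)
  · simp only; rw [hx]; ring
  · simp only; ring

/-- A transversal chord of `l + 1` points upwards from row `0`. -/
lemma col_low (C : Cfg S l N k m unc a b) {x y t : ℤ} (h : (x, y) ∈ S) (hly : l ≤ y)
    (ht0 : 0 ≤ t) (htl : t ≤ l) {z : ℤ} (hx : x = t + z * y) (hu : unc (-1)) :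
    RowLe S (-1) (m - 1) := by
  have hl := C.hl
  apply C.col t 0 z 1 (by norm_num) ?_ (-1) hu
  · intro s hs0 hs1; omega
  · intro s hs0 hs1
    have := C.colS h (by omega) ht0 htl hx hs0 (by omega : s ≤ y)
    convert this using 2
    ring

/-- No transversal chord of `l + 2` points. -/
lemma col_no (C : Cfg S l N k m unc a b) {x y t : ℤ} (h : (x, y) ∈ S) (hly : l + 1 ≤ y)
    (ht0 : 0 ≤ t) (htl : t ≤ l) {z : ℤ} (hx : x = t + z * y) : False := by
  have hl := C.hl
  have h1 := C.colS h (by omega) ht0 htl hx (by omega : (0 : ℤ) ≤ l + 1) (by omega)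
  apply C.no (t, 0) z 1 (by simp) (C.row0_mem ht0 htl)
  convert h1 using 2
  ring

lemma low_ineq (C : Cfg S l N k m unc a b) {s : ℤ} (ha : 1 ≤ a) (h : RowLe S (-1) s) :
    a * (l - 1 - s) + 2 ≤ l := by
  obtain ⟨x, hx⟩ := C.apx'
  have hx' : (x, a) ∈ {p : ℤ × ℤ | (p.1, -p.2) ∈ S} := hx
  have h' : RowLe {p : ℤ × ℤ | (p.1, -p.2) ∈ S} 1 s := RowLe.refl h
  have := C.toGeo.refl.ineq hx' (by norm_num) ha h'
  linarith

/-! ### `k = 1`, `l = N` -/

lemma A1 (C : Cfg S l N k m unc a b) (hlN : l = N) (hk : k = 1) (hb : l - 1 ≤ b) :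
    (∃ p : ℤ, ∀ x : ℤ, (x, 1) ∈ S ↔ p ≤ x ∧ x ≤ p + (l - 1) - 1) ∧ b ≤ l ∧
    (b = l → RowLe S (-1) (l - 2)) := by
  have hl := C.hl
  have hm : m = l - 1 := by have := C.hkm; omega
  obtain ⟨xb, hxb⟩ := C.apx
  have r1 : RowLe S 1 (l - 1) := by
    have := C.row 1 (C.unc_ne hk (by norm_num))
    rwa [hm] at this
  have r2 : ¬ RowLe S 1 ((l - 1) - 1) := by
    intro h
    have := C.toGeo.ineq hxb (by norm_num) (by omega) h
    have e : l - 1 - (l - 1 - 1) = 1 := by ring
    rw [e] at this
    omega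
  obtain ⟨p, hp⟩ := C.toGeo.row_form (by omega) r1 r2
  have e1 := C.toGeo.R1 hxb (by omega) (p := p) (fun x' hx' => ((hp x').1 hx').1)
  have e2 := C.toGeo.R1' hxb (by omega) (q := p + (l - 1) - 1)
    (fun x' hx' => ((hp x').1 hx').2)
  have e3 : l - 1 - (p + (l - 1) - 1) = -(p - 1) := by ring
  rw [e3] at e2
  obtain ⟨t, ht⟩ : ∃ t, t = xb - (p - 1) * b := ⟨_, rfl⟩
  have ht0 : 0 ≤ t := by linarith
  have htl : t ≤ l := by linarith
  have hx : xb = t + (p - 1) * b := by rw [ht]; ring
  refine ⟨⟨p, hp⟩, ?_, ?_⟩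
  · by_contra hc
    exact C.col_no hxb (by omega) ht0 htl hx
  · intro hbl
    have := C.col_low hxb (by omega) ht0 htl hx (C.unc_ne hk (by norm_num))
    rw [hm] at this
    have e4 : l - 1 - 1 = l - 2 := by ring
    rwa [e4] at this

lemma A2 (C : Cfg S l N k m unc a b) (hlN : l = N) (hk : k = 1) (hb : b = l) : a ≤ l - 2 := by
  have hl := C.hl
  obtain ⟨_, _, h3⟩ := C.A1 hlN hk (by omega)
  have h4 := h3 hb
  by_cases ha : 1 ≤ a
  · have := C.low_ineq ha h4
    have e : l - 1 - (l - 2) = 1 := by ring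
    rw [e] at this
    omega
  · omega

lemma caseA_aux (C : Cfg S l N k m unc a b) (hlN : l = N) (hk : k = 1) (hN4 : N ≤ 4)
    (hab : a ≤ b) : False := by
  have hN := C.hN
  have hw := C.wid
  have ha0 := C.a0
  have hN' : N = 2 ∨ N = 3 ∨ N = 4 := by omega
  rcases hN' with h | h | h
  · obtain ⟨_, h2, _⟩ := C.A1 hlN hk (by omega)
    have := C.A2 hlN hk (by omega)
    omega
  · obtain ⟨_, h2, _⟩ := C.A1 hlN hk (by omega)
    have := C.A2 hlN hk (by omega)
    omega
  · obtain ⟨⟨p, hp⟩, h2, h3⟩ := C.A1 hlN hk (by omega)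
    have hb : b = 4 ∨ b = 3 := by omega
    subst h
    subst hlN
    rcases hb with hb | hb
    · have h4 := C.A2 rfl hk hb
      have ha : a = 2 := by omega
      have hr := h3 hb
      subst hb
      subst ha
      have G := C.toGeo.shear (p - 1)
      refine geo42 G ?_ (RowLe.shear hr (p - 1))
      intro x
      simp only [mem_ofPred_eq]
      rw [mul_one, hp]
      constructor <;> intro h <;> omega
    · have ha : a = 3 := by omega
      obtain ⟨⟨p', hp'⟩, _, _⟩ := C.refl.A1 rfl hk (by omega)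
      subst hb
      subst ha
      have G := C.toGeo.shear (p - 1)
      refine geo33 G ?_ (c := p + p' - 2) ?_
      · intro x
        simp only [mem_ofPred_eq]
        rw [mul_one, hp]
        constructor <;> intro h <;> omega
      · intro x
        have := hp' (x + (p - 1) * -1)
        simp only [mem_ofPred_eq] at this ⊢
        rw [this]
        constructor <;> intro h <;> omega

lemma caseA (C : Cfg S l N k m unc a b) (hlN : l = N) (hk : k = 1) (hN4 : N ≤ 4) : False := by
  rcases le_total a b with h | h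
  · exact C.caseA_aux hlN hk hN4 h
  · exact C.refl.caseA_aux hlN hk hN4 h

/-! ### `k = 1`, `l = N + 1` -/

lemma B1 (C : Cfg S l N k m unc a b) (hlN : l = N + 1) (hk : k = 1) (hb : l < 2 * b + 2) :
    (∃ p : ℤ, ∀ x : ℤ, (x, 1) ∈ S ↔ p ≤ x ∧ x ≤ p + (l - 2) - 1) := by
  have hl := C.hl
  have hN := C.hN
  have hm : m = l - 2 := by have := C.hkm; omega
  obtain ⟨xb, hxb⟩ := C.apx
  have r1 : RowLe S 1 (l - 2) := by
    have := C.row 1 (C.unc_ne hk (by norm_num))
    rwa [hm] at this
  have r2 : ¬ RowLe S 1 ((l - 2) - 1) := by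
    intro h
    have := C.toGeo.ineq hxb (by norm_num) (by omega) h
    have e : l - 1 - (l - 2 - 1) = 2 := by ring
    rw [e] at this
    omega
  exact C.toGeo.row_form (by omega) r1 r2

lemma caseB (C : Cfg S l N k m unc a b) (hlN : l = N + 1) (hk : k = 1) (hN8 : N ≤ 8)
    (hb : b ≤ l - 2) (ha : a ≤ l - 2) : False := by
  have hN := C.hN
  have hw := C.wid
  have ha0 := C.a0
  have hb0 := C.b0
  have hN4 : 4 ≤ N := by omega
  obtain ⟨p, hp⟩ := C.B1 hlN hk (by omega)
  obtain ⟨p', hp'⟩ := C.refl.B1 hlN hk (by omega)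
  have G := C.toGeo.shear (p - 1)
  have hX : (a + 1) * (l - 1 - b) + (b - 1) * (l - 1 - 2 * a) ≤ 0 ∧
      (l - 1) * (a + b) ≤ (a + 1) + (b - 1) * (3 * a + 1) := by
    subst hlN
    clear hp hp' G C
    have h1 : a = N - 1 ∨ a = N - 2 := by omega
    have h2 : b = N - 1 ∨ b = N - 2 := by omega
    interval_cases N <;> rcases h1 with rfl | rfl <;> rcases h2 with rfl | rfl <;> omega
  refine geoC G hlN (by omega) (by omega) (by omega) hX.1 hX.2 ?_ (c := p + p' - 2) ?_
  · intro x
    simp only [mem_ofPred_eq]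
    rw [mul_one, hp]
    constructor <;> intro h <;> omega
  · intro x
    have := hp' (x + (p - 1) * -1)
    simp only [mem_ofPred_eq] at this ⊢
    rw [this]
    constructor <;> intro h <;> omega

/-! ### Case `N = l = 3`, `k = 2` -/

lemma caseC_aux (C : Cfg S 3 3 2 1 unc a b) (h2 : unc 2) (hb : b = 4) : False := by
  subst hb
  obtain ⟨x, hx⟩ := C.apx
  have hr := C.row 2 h2
  obtain ⟨i, hi0, hi1, hi⟩ := hr ((x + 1) / 2)
  apply hi
  apply C.toGeo.fill hx (by norm_num) (by norm_num)
  · omega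
  · omega

/-! ### Case `N = l = 4`, `k = 3` -/

lemma caseD1_aux (C : Cfg S 4 4 3 1 unc a b) (h3 : unc 3) (hb : b = 5) : False := by
  subst hb
  obtain ⟨x, hx⟩ := C.apx
  have hr := C.row 3 h3
  have h5 : x % 5 = 2 := by
    by_contra hne
    obtain ⟨i, hi0, hi1, hi⟩ := hr (-((-(3 * x)) / 5))
    apply hi
    apply C.toGeo.fill hx (by norm_num) (by norm_num)
    · omega
    · omega
  exact C.col_no hx (by norm_num) (t := 2) (by norm_num) (by norm_num) (z := x / 5) (by omega)

lemma caseD2_aux (C : Cfg S 4 4 3 1 unc a b) (h1 : ¬ unc 1) (h1' : ¬ unc (-1)) (h2 : unc 2)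
    (h2' : unc (-2)) (hb : b = 3) (ha : a = 3) : False := by
  subst hb
  subst ha
  obtain ⟨x, hx⟩ := C.apx
  obtain ⟨x', hx'⟩ := C.apx'
  have hx'r : (x', (3 : ℤ)) ∈ {p : ℤ × ℤ | (p.1, -p.2) ∈ S} := hx'
  have hunc : ∀ y : ℤ, y ≠ 0 → y ≠ 1 → y ≠ -1 → unc y := by
    intro y hy0 hy1 hy2
    by_contra h
    have := C.cnt {0, 1, -1, y} (by
      intro z hz
      simp only [Finset.mem_insert, Finset.mem_singleton] at hz
      rcases hz with rfl | rfl | rfl | rfl
      · exact C.u0
      · exact h1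
      · exact h1'
      · exact h)
    have hcard : ({0, 1, -1, y} : Finset ℤ).card = 4 := by
      rw [Finset.card_insert_of_notMem, Finset.card_insert_of_notMem,
        Finset.card_insert_of_notMem, Finset.card_singleton]
      · simpa using Ne.symm hy2
      · simp only [Finset.mem_insert, Finset.mem_singleton]; omega
      · simp only [Finset.mem_insert, Finset.mem_singleton]; omega
    rw [hcard] at this
    norm_num at this
  have hr := C.row 2 h2
  have hr' : RowLe {p : ℤ × ℤ | (p.1, -p.2) ∈ S} 2 1 := (C.row (-2) h2').refl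
  have h3 : x % 3 = 2 := by
    by_contra hne
    obtain ⟨i, hi0, hi1, hi⟩ := hr (-((-(2 * x)) / 3))
    apply hi
    apply C.toGeo.fill hx (by norm_num) (by norm_num)
    · omega
    · omega
  have h3' : x' % 3 = 2 := by
    by_contra hne
    obtain ⟨i, hi0, hi1, hi⟩ := hr' (-((-(2 * x')) / 3))
    apply hi
    apply C.toGeo.refl.fill hx'r (by norm_num) (by norm_num)
    · omega
    · omega
  obtain ⟨t, ht⟩ : ∃ t, x = 3 * t + 2 := ⟨x / 3, by omega⟩
  obtain ⟨t', ht'⟩ : ∃ t', x' = 3 * t' + 2 := ⟨x' / 3, by omega⟩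
  have m2 : (2 * t + 2, (2 : ℤ)) ∈ S := by
    apply C.toGeo.fill hx (by norm_num) (by norm_num)
    · omega
    · omega
  have m2' : (2 * t' + 2, (-2 : ℤ)) ∈ S := by
    have : (2 * t' + 2, (2 : ℤ)) ∈ {p : ℤ × ℤ | (p.1, -p.2) ∈ S} := by
      apply C.toGeo.refl.fill hx'r (by norm_num) (by norm_num)
      · omega
      · omega
    exact this
  have hone := C.one rfl (x, 3) (2 * t + 2, 2) (2 * t' + 2, -2) hx m2 m2'
    (hunc 3 (by norm_num) (by norm_num) (by norm_num)) h2 h2'
  simp only at hone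
  have htt : t' = -t := by rw [ht] at hone; linarith
  apply C.no (x', -3) t 1 (by simp) hx'
  convert m2 using 2
  · simp only; rw [ht', htt]; ring
  · norm_num

/-! ### Case `N = l = 4`, `k = 2` -/

lemma caseE_aux (C : Cfg S 4 4 2 2 unc a b) (h1 : ¬ unc 1) (h2 : unc 2) (hb : b ≤ 6)
    (ha : a ≤ 2) (hab : 6 ≤ a + b) : False := by
  obtain ⟨x, hx⟩ := C.apx
  have hr := C.row 2 h2
  have hu : unc (-1) := by
    by_contra h
    have := C.cnt {0, 1, -1} (by
      intro z hz
      simp only [Finset.mem_insert, Finset.mem_singleton] at hz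
      rcases hz with rfl | rfl | rfl
      · exact C.u0
      · exact h1
      · exact h)
    have hcard : ({0, 1, -1} : Finset ℤ).card = 3 := by decide
    rw [hcard] at this
    norm_num at this
  have hb' : b = 6 ∨ b = 5 ∨ b = 4 := by omega
  rcases hb' with rfl | rfl | rfl
  · obtain ⟨i, hi0, hi1, hi⟩ := hr (-((-(2 * x)) / 6))
    apply hi
    apply C.toGeo.fill hx (by norm_num) (by norm_num)
    · omega
    · omega
  · have h5 : x % 5 = 1 ∨ x % 5 = 3 := by
      by_contra hne
      obtain ⟨i, hi0, hi1, hi⟩ := hr (-((-(2 * x)) / 5))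
      apply hi
      apply C.toGeo.fill hx (by norm_num) (by norm_num)
      · omega
      · omega
    rcases h5 with h5 | h5
    · exact C.col_no hx (by norm_num) (t := 1) (by norm_num) (by norm_num) (z := x / 5)
        (by omega)
    · exact C.col_no hx (by norm_num) (t := 3) (by norm_num) (by norm_num) (z := x / 5)
        (by omega)
  · have ha2 : a = 2 := by omega
    have h4 : x % 4 = 1 ∨ x % 4 = 3 := by
      by_contra hne
      obtain ⟨i, hi0, hi1, hi⟩ := hr (-((-(2 * x)) / 4))
      apply hi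
      apply C.toGeo.fill hx (by norm_num) (by norm_num)
      · omega
      · omega
    have hr1 : RowLe S (-1) (2 - 1) := by
      rcases h4 with h4 | h4
      · exact C.col_low hx (by norm_num) (t := 1) (by norm_num) (by norm_num) (z := x / 4)
          (by omega) hu
      · exact C.col_low hx (by norm_num) (t := 3) (by norm_num) (by norm_num) (z := x / 4)
          (by omega) hu
    have := C.low_ineq (by omega) hr1
    omega

/-! ### The arithmetic -/

lemma arith_big {N K e W l : ℤ} (hN : 2 ≤ N) (hK : 2 ≤ K) (hKN : K ≤ N + 1) (he : 0 ≤ e)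
    (hl : l = N + 2 + e) (hW : 5 * N < 3 * (W + 1)) (h : W * (K + e) + 4 ≤ l * K) : False := by
  subst hl
  rcases eq_or_lt_of_le hN with h2 | h2
  · subst h2
    have hW3 : 3 ≤ W := by omega
    have h3 : 3 * (K + e) ≤ W * (K + e) := mul_le_mul_of_nonneg_right hW3 (by omega)
    have hK' : K = 2 ∨ K = 3 := by omega
    rcases hK' with rfl | rfl <;> omega
  · have h3 : (5 * N - 2) * (K + e) ≤ 3 * W * (K + e) :=
      mul_le_mul_of_nonneg_right (by omega) (by omega)
    have h4 : 0 ≤ K * (8 - 2 * N) + e * (3 * K - 5 * N + 2) - 12 := by nlinarith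
    have h5 : e * (3 * K - 5 * N + 2) ≤ 0 :=
      mul_nonpos_of_nonneg_of_nonpos he (by omega)
    rcases eq_or_lt_of_le (show 3 ≤ N by omega) with h6 | h6
    · subst h6; omega
    · have h7 : K * (8 - 2 * N) ≤ 0 := mul_nonpos_of_nonneg_of_nonpos (by omega) (by omega)
      omega

theorem false (C : Cfg S l N k m unc a b) : False := by
  have hN := C.hN
  have hNl := C.hNl
  have hkm := C.hkm
  have hm := C.hm
  have hw := C.wid
  have ha0 := C.a0
  have hb0 := C.b0
  obtain ⟨w, hw1, hw2⟩ := C.flat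
  obtain ⟨J, hJ1, hJb, hJc, hJu, hJi⟩ := C.exists_J
  obtain ⟨J', hJ1', hJb', hJc', hJu', hJi'⟩ := C.refl.exists_J
  have hJJ : J + J' - 1 ≤ k := by
    have := C.cnt (Finset.Ioo (-J') J) (by
      intro y hy
      rw [Finset.mem_Ioo] at hy
      rcases lt_trichotomy y 0 with h | h | h
      · have := hJc' (-y) (by omega) (by omega)
        simpa using this
      · subst h; exact C.u0
      · exact hJc y (by omega) hy.2)
    rw [Int.card_Ioo] at this
    have h2 : ((J - -J' - 1).toNat : ℤ) = J - -J' - 1 := Int.toNat_of_nonneg (by omega)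
    rw [h2] at this
    omega
  have hm' : m = N - k := by omega
  have hsum : (a + b) * (l - 1 - m) + 4 ≤ l * (k + 1) := by
    have h1 : l * (J + J') ≤ l * (k + 1) := mul_le_mul_of_nonneg_left (by omega) (by omega)
    nlinarith
  have hl3 : l = N ∨ l = N + 1 ∨ N + 2 ≤ l := by omega
  rcases hl3 with h | h | h
  · -- l = N
    have hN5 : N ≤ 5 := by linarith
    have hN5' : N ≠ 5 := by
      intro h5
      rw [h5] at hw1
      rw [h, h5] at hw2
      omega
    have hN4 : N ≤ 4 := by omega
    by_cases hk1 : k = 1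
    · exact C.caseA h hk1 hN4
    have hN' : N = 2 ∨ N = 3 ∨ N = 4 := by omega
    rcases hN' with hN2 | hN3 | hN4
    · subst h
      have hk2 : k = 2 := by omega
      rw [hm', hk2, hN2] at hsum
      omega
    · subst h
      have hk2 : k = 2 ∨ k = 3 := by omega
      rcases hk2 with hk2 | hk2
      · subst hk2
        subst hN3
        have hm1 : m = 1 := by omega
        subst hm1
        have e1 : b + 2 ≤ 3 * J := by linarith
        have e2 : a + 2 ≤ 3 * J' := by linarith
        have hJ2 : (J = 2 ∧ J' = 1) ∨ (J = 1 ∧ J' = 2) := by omega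
        rcases hJ2 with ⟨h1, h2⟩ | ⟨h1, h2⟩
        · subst h1
          exact C.caseC_aux (hJu (by omega)) (by omega)
        · subst h2
          exact C.refl.caseC_aux (hJu' (by omega)) (by omega)
      · rw [hm', hk2, hN3] at hsum
        omega
    · subst h
      have hk2 : k = 2 ∨ k = 3 ∨ k = 4 := by omega
      rcases hk2 with hk2 | hk2 | hk2
      · subst hk2
        subst hN4
        have hm1 : m = 2 := by omega
        subst hm1
        have e1 : b + 2 ≤ 4 * J := by linarith
        have e2 : a + 2 ≤ 4 * J' := by linarith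
        have hJ2 : (J = 2 ∧ J' = 1) ∨ (J = 1 ∧ J' = 2) := by omega
        rcases hJ2 with ⟨h1, h2⟩ | ⟨h1, h2⟩
        · subst h1
          exact C.caseE_aux (hJc 1 (by norm_num) (by norm_num)) (hJu (by omega)) (by omega)
            (by omega) (by omega)
        · subst h2
          exact C.refl.caseE_aux (hJc' 1 (by norm_num) (by norm_num)) (hJu' (by omega))
            (by omega) (by omega) (by omega)
      · subst hk2
        subst hN4
        have hm1 : m = 1 := by omega
        subst hm1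
        have e1 : b * 2 + 2 ≤ 4 * J := by linarith
        have e2 : a * 2 + 2 ≤ 4 * J' := by linarith
        have hJ2 : (J = 3 ∧ J' = 1) ∨ (J = 2 ∧ J' = 2) ∨ (J = 1 ∧ J' = 3) := by omega
        rcases hJ2 with ⟨h1, h2⟩ | ⟨h1, h2⟩ | ⟨h1, h2⟩
        · subst h1
          exact C.caseD1_aux (hJu (by omega)) (by omega)
        · subst h1
          subst h2
          exact C.caseD2_aux (hJc 1 (by norm_num) (by norm_num))
            (hJc' 1 (by norm_num) (by norm_num)) (hJu (by omega)) (hJu' (by omega))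
            (by omega) (by omega)
        · subst h2
          exact C.refl.caseD1_aux (hJu' (by omega)) (by omega)
      · rw [hm', hk2, hN4] at hsum
        omega
  · -- l = N + 1
    have hN9 : N ≤ 9 := by linarith
    have hN9' : N ≠ 9 := by
      intro h5
      rw [h5] at hw1
      rw [h, h5] at hw2
      omega
    have hN8 : N ≤ 8 := by omega
    by_cases hk1 : k = 1
    · have hm1 : m = l - 2 := by omega
      have hJ : J = 1 ∧ J' = 1 := by omega
      have e : l - 1 - m = 1 := by omega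
      rw [e, hJ.1] at hJi
      rw [e, hJ.2] at hJi'
      exact C.caseB h hk1 hN8 (by omega) (by omega)
    · have e : l - 1 - m = k := by omega
      rw [e, h] at hsum
      have hkN : k ≤ N := by omega
      have hk2 : 2 ≤ k := by omega
      clear hJi hJi' hJu hJu' hJc hJc' C
      interval_cases N <;> interval_cases k <;> omega
  · -- l ≥ N + 2
    refine arith_big (K := k + 1) (e := l - N - 2) (W := a + b) (l := l) hN (by omega)
      (by omega) (by omega) (by ring) hw ?_
    have e : k + 1 + (l - N - 2) = l - 1 - m := by omega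
    rw [e]
    exact hsum

end Cfg

end Pool.Agent.Work.MP_b10815_co_helper58
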