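import Mathlib

set_option autoImplicit false

namespace Pool.Agent.Work.MP_b10815_co_helper58

open Set

/-- A non-extreme point of a convex set lies in the middle of a segment of the set. -/
lemma exists_seg_of_not_extreme {Q : Set (ℝ × ℝ)} (hQ : Convex ℝ Q) {q : ℝ × ℝ} (hq : q ∈ Q)
    (hne : q ∉ Q.extremePoints ℝ) : ∃ e : ℝ × ℝ, e ≠ 0 ∧ ∀ s : ℝ, |s| ≤ 1 → q + s • e ∈ Q := by
  rw [mem_extremePoints_iff_left] at hne
  push Not at hne
  obtain ⟨x1, hx1, x2, hx2, hseg, hx⟩ := hne hq
  obtain ⟨a, b, ha, hb, hab, rfl⟩ := hseg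
  have hmin : 0 < min a b := lt_min ha hb
  refine ⟨min a b • (x1 - x2), ?_, ?_⟩
  · intro h
    rcases smul_eq_zero.mp h with h | h
    · exact hmin.ne' h
    · apply hx
      have : x1 = x2 := sub_eq_zero.mp h
      subst this
      rw [← add_smul, hab, one_smul]
  · intro s hs
    have hs' := abs_le.mp hs
    have h1 : |s * min a b| ≤ min a b := by
      rw [abs_mul, abs_of_pos hmin]
      exact mul_le_of_le_one_left hmin.le hs
    have h2 := abs_le.mp h1
    have e1 : a • x1 + b • x2 + s • min a b • (x1 - x2) =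
        (a + s * min a b) • x1 + (b - s * min a b) • x2 := by
      rw [smul_smul, smul_sub, add_smul, sub_smul]; abel
    rw [e1]
    apply hQ hx1 hx2
    · linarith [min_le_left a b]
    · linarith [min_le_right a b]
    · linarith

/-- In a compact convex planar set, a chord `[q, q + M z]` can be moved so that it has an
extreme point of the set as an endpoint. -/
lemma chord_extreme {Q : Set (ℝ × ℝ)} (hc : IsCompact Q) (hQ : Convex ℝ Q) {z : ℝ × ℝ}
    (hz : z ≠ 0) {M : ℝ} (hM : 0 ≤ M) {q : ℝ × ℝ} (hq : q ∈ Q) (hp : q + M • z ∈ Q) :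
    ∃ v ∈ Q.extremePoints ℝ, v + M • z ∈ Q ∨ v - M • z ∈ Q := by
  have hzz : 0 < z.1 ^ 2 + z.2 ^ 2 := by
    by_contra h
    apply hz
    have h1 : z.1 ^ 2 = 0 := by nlinarith [sq_nonneg z.1, sq_nonneg z.2]
    have h2 : z.2 ^ 2 = 0 := by nlinarith [sq_nonneg z.1, sq_nonneg z.2]
    ext
    · simpa using h1
    · simpa using h2
  -- vectors of zero transversal component are multiples of `z`
  have hpar : ∀ v : ℝ × ℝ, v.1 * z.2 - v.2 * z.1 = 0 →
      v = ((v.1 * z.1 + v.2 * z.2) / (z.1 ^ 2 + z.2 ^ 2)) • z := by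
    intro v hv
    ext
    · simp only [Prod.smul_fst, smul_eq_mul]
      field_simp
      linear_combination z.2 * hv
    · simp only [Prod.smul_snd, smul_eq_mul]
      field_simp
      linear_combination (-z.1) * hv
  set G : Set ((ℝ × ℝ) × (ℝ × ℝ)) := (Q ×ˢ Q) ∩
    {x | (x.2.1 - x.1.1) * z.2 - (x.2.2 - x.1.2) * z.1 = 0} with hG
  have hGc : IsCompact G := by
    apply (hc.prod hc).inter_right
    exact isClosed_eq (by fun_prop) (by fun_prop)
  have hGne : G.Nonempty := by
    refine ⟨(q, q + M • z), ⟨hq, hp⟩, ?_⟩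
    simp only [mem_ofPred_eq, Prod.fst_add, Prod.snd_add, Prod.smul_fst, Prod.smul_snd, smul_eq_mul]
    ring
  obtain ⟨x0, hx0, hmax⟩ := hGc.exists_isMaxOn hGne
    (f := fun x : (ℝ × ℝ) × (ℝ × ℝ) => (x.2.1 - x.1.1) * z.1 + (x.2.2 - x.1.2) * z.2)
    (by fun_prop)
  set t : ℝ := ((x0.2.1 - x0.1.1) * z.1 + (x0.2.2 - x0.1.2) * z.2) / (z.1 ^ 2 + z.2 ^ 2) with ht
  have hx0' : x0.2 = x0.1 + t • z := by
    have := hpar (x0.2 - x0.1) (by simpa using hx0.2)
    have h2 : x0.2 = x0.1 + (x0.2 - x0.1) := by abel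
    rw [h2, this]
    simp [ht]
  -- maximality of `t`
  have hmaxt : ∀ (r : ℝ × ℝ) (s : ℝ), r ∈ Q → r + s • z ∈ Q → s ≤ t := by
    intro r s hr hs
    have hmem : (r, r + s • z) ∈ G := by
      refine ⟨⟨hr, hs⟩, ?_⟩
      simp only [mem_ofPred_eq, Prod.fst_add, Prod.snd_add, Prod.smul_fst, Prod.smul_snd,
        smul_eq_mul]
      ring
    have h1 := hmax hmem
    simp only [mem_ofPred_eq, Prod.fst_add, Prod.snd_add, Prod.smul_fst, Prod.smul_snd,
      smul_eq_mul] at h1
    rw [ht, le_div_iff₀ hzz]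
    linarith
  have hMt : M ≤ t := hmaxt q M hq hp
  set F : Set (ℝ × ℝ) := Q ∩ {r | r + t • z ∈ Q} with hF
  have hFc : IsCompact F := by
    apply hc.inter_right
    exact hc.isClosed.preimage (by fun_prop : Continuous fun r : ℝ × ℝ => r + t • z)
  have hFne : F.Nonempty := ⟨x0.1, hx0.1.1, by
    change x0.1 + t • z ∈ Q
    rw [← hx0']; exact hx0.1.2⟩
  obtain ⟨q1, hq1⟩ := hFc.extremePoints_nonempty hFne
  have hq1F := hq1.1
  have hq1Q : q1 ∈ Q := hq1F.1
  have hp1Q : q1 + t • z ∈ Q := hq1F.2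
  have ht0 : 0 ≤ t := hM.trans hMt
  -- the sub-chord of length M
  have hsub : q1 + M • z ∈ Q ∧ (q1 + t • z) - M • z ∈ Q := by
    rcases eq_or_lt_of_le ht0 with h0 | h0
    · have hM0 : M = 0 := le_antisymm (h0 ▸ hMt) hM
      subst hM0
      rw [← h0]
      simp [hq1Q]
    · have hr : M / t ≤ 1 := (div_le_one h0).mpr hMt
      have hr0 : 0 ≤ M / t := div_nonneg hM ht0
      constructor
      · have := hQ hq1Q hp1Q (a := 1 - M / t) (b := M / t) (by linarith) hr0 (by ring)
        convert this using 1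
        rw [smul_add, ← add_assoc, ← add_smul, smul_smul, div_mul_cancel₀ _ h0.ne']
        simp
      · have := hQ hq1Q hp1Q (a := M / t) (b := 1 - M / t) hr0 (by linarith) (by ring)
        convert this using 1
        rw [smul_add, ← add_assoc, ← add_smul, smul_smul]
        have : (1 - M / t) * t = t - M := by field_simp
        rw [this, sub_smul]
        simp only [add_sub_cancel, one_smul]
        abel
  by_cases h1 : q1 ∈ Q.extremePoints ℝ
  · exact ⟨q1, h1, Or.inl hsub.1⟩
  by_cases h2 : q1 + t • z ∈ Q.extremePoints ℝ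
  · exact ⟨_, h2, Or.inr hsub.2⟩
  exfalso
  obtain ⟨e, he, hes⟩ := exists_seg_of_not_extreme hQ hq1Q h1
  obtain ⟨f, hf, hfs⟩ := exists_seg_of_not_extreme hQ hp1Q h2
  -- neither is parallel to z
  have hte : e.1 * z.2 - e.2 * z.1 ≠ 0 := by
    intro h
    set μ := (e.1 * z.1 + e.2 * z.2) / (z.1 ^ 2 + z.2 ^ 2) with hμ
    have he' : e = μ • z := hpar e h
    have hμ0 : μ ≠ 0 := by
      rintro h0
      rw [h0, zero_smul] at he'
      exact he he'
    have key : ∀ s : ℝ, |s| ≤ 1 → -(s * μ) ≤ 0 := by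
      intro s hs
      have h3 := hmaxt (q1 + s • e) (t - s * μ) (hes s hs) (by
        rw [he', smul_smul, sub_smul]
        simpa using hp1Q)
      linarith
    have k1 := key 1 (by simp)
    have k2 := key (-1) (by simp)
    apply hμ0
    linarith
  have htf : f.1 * z.2 - f.2 * z.1 ≠ 0 := by
    intro h
    set μ := (f.1 * z.1 + f.2 * z.2) / (z.1 ^ 2 + z.2 ^ 2) with hμ
    have he' : f = μ • z := hpar f h
    have hμ0 : μ ≠ 0 := by
      rintro h0
      rw [h0, zero_smul] at he'
      exact hf he'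
    have key : ∀ s : ℝ, |s| ≤ 1 → (s * μ) ≤ 0 := by
      intro s hs
      have h3 := hmaxt q1 (t + s * μ) hq1Q (by
        have := hfs s hs
        rw [he', smul_smul] at this
        rw [add_smul, ← add_assoc]
        exact this)
      linarith
    have k1 := key 1 (by simp)
    have k2 := key (-1) (by simp)
    apply hμ0
    linarith
  set τe := e.1 * z.2 - e.2 * z.1 with hτe
  set τf := f.1 * z.2 - f.2 * z.1 with hτf
  set κ : ℝ := 1 / (|τe| + |τf|) with hκ
  have hpos : 0 < |τe| + |τf| := by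
    have := abs_pos.mpr hte
    have := abs_nonneg τf
    linarith
  have hκ0 : 0 < κ := by positivity
  have hb1 : |τf * κ| ≤ 1 := by
    rw [abs_mul, abs_of_pos hκ0, hκ, mul_one_div, div_le_one hpos]
    linarith [abs_nonneg τe]
  have hb2 : |τe * κ| ≤ 1 := by
    rw [abs_mul, abs_of_pos hκ0, hκ, mul_one_div, div_le_one hpos]
    linarith [abs_nonneg τf]
  set e' := (τf * κ) • e with he'
  set f' := (τe * κ) • f with hf'
  have hdiff : (f' - e').1 * z.2 - (f' - e').2 * z.1 = 0 := by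
    simp only [he', hf', Prod.fst_sub, Prod.snd_sub, Prod.smul_fst, Prod.smul_snd, smul_eq_mul]
    rw [hτe, hτf]
    ring
  set μ := ((f' - e').1 * z.1 + (f' - e').2 * z.2) / (z.1 ^ 2 + z.2 ^ 2) with hμ
  have hfe : f' = e' + μ • z := by
    have := hpar _ hdiff
    rw [← this]; abel
  have m1 : q1 + e' ∈ Q := hes _ hb1
  have m2 : q1 - e' ∈ Q := by
    have := hes (-(τf * κ)) (by rw [abs_neg]; exact hb1)
    rw [neg_smul, ← sub_eq_add_neg] at this
    exact this
  have m3 : q1 + t • z + f' ∈ Q := hfs _ hb2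
  have m4 : q1 + t • z - f' ∈ Q := by
    have := hfs (-(τe * κ)) (by rw [abs_neg]; exact hb2)
    rw [neg_smul, ← sub_eq_add_neg] at this
    exact this
  have hμ1 : t + μ ≤ t := by
    apply hmaxt (q1 + e') (t + μ) m1
    have : q1 + e' + (t + μ) • z = q1 + t • z + f' := by
      rw [hfe, add_smul]; abel
    rw [this]; exact m3
  have hμ2 : t - μ ≤ t := by
    apply hmaxt (q1 - e') (t - μ) m2
    have : q1 - e' + (t - μ) • z = q1 + t • z - f' := by
      rw [hfe, sub_smul]; abel
    rw [this]; exact m4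
  have hμ0 : μ = 0 := by linarith
  have hfe' : f' = e' := by rw [hfe, hμ0, zero_smul, add_zero]
  have n1 : q1 + e' ∈ F := ⟨m1, by
    change q1 + e' + t • z ∈ Q
    have : q1 + e' + t • z = q1 + t • z + f' := by rw [hfe']; abel
    rw [this]; exact m3⟩
  have n2 : q1 - e' ∈ F := ⟨m2, by
    change q1 - e' + t • z ∈ Q
    have : q1 - e' + t • z = q1 + t • z - f' := by rw [hfe']; abel
    rw [this]; exact m4⟩
  have hopen : q1 ∈ openSegment ℝ (q1 + e') (q1 - e') := by
    refine ⟨1/2, 1/2, by norm_num, by norm_num, by norm_num, ?_⟩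
    rw [← smul_add]
    have : q1 + e' + (q1 - e') = (2 : ℝ) • q1 := by rw [two_smul]; abel
    rw [this, smul_smul]; norm_num
  have := (mem_extremePoints_iff_left.mp hq1).2 _ n1 _ n2 hopen
  have he0 : e' = 0 := by simpa using this
  rcases smul_eq_zero.mp he0 with h | h
  · rcases mul_eq_zero.mp h with h | h
    · exact htf h
    · exact hκ0.ne' h
  · exact he h

end Pool.Agent.Work.MP_b10815_co_helper58
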