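import Mathlib

set_option autoImplicit false

namespace Pool.Agent.Work.MP_b10815_co_helper58

open Set

/-- The hypotheses on the symmetric planar body `D`: convex, symmetric, contains no nonzero
point of `M ℤ²`, and contains the point `(x0, h)` with `0 < x0 < h`, `4 M ≤ 3 h`. -/
structure PD (D : Set (ℝ × ℝ)) (M h x0 : ℝ) : Prop where
  hM : 0 < M
  hh : 4 * M ≤ 3 * h
  conv : Convex ℝ D
  symm : ∀ p ∈ D, -p ∈ D
  no : ∀ i j : ℤ, (i, j) ≠ (0, 0) → ((M * i, M * j) : ℝ × ℝ) ∉ D
  pt : (x0, h) ∈ D
  pos : 0 < x0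
  lt : x0 < h

variable {D : Set (ℝ × ℝ)} {M h x0 : ℝ}

lemma PD.zero (H : PD D M h x0) : (0 : ℝ × ℝ) ∈ D := by
  have h1 := H.pt
  have h2 := H.symm _ h1
  have := H.conv h1 h2 (a := 1/2) (b := 1/2) (by norm_num) (by norm_num) (by norm_num)
  convert this using 1
  ext <;> simp

/-- Convex combination in coordinates with a common denominator. -/
lemma PD.comb (H : PD D M h x0) {x y x' y' a b : ℝ} (h1 : (x, y) ∈ D) (h2 : (x', y') ∈ D)
    (ha : 0 ≤ a) (hb : 0 ≤ b) (hab : 0 < a + b) :
    ((a * x + b * x') / (a + b), (a * y + b * y') / (a + b)) ∈ D := by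
  have := H.conv h1 h2 (a := a / (a + b)) (b := b / (a + b)) (by positivity) (by positivity)
    (by field_simp)
  convert this using 1
  ext
  · simp only [Prod.fst_add, Prod.smul_fst, smul_eq_mul]; ring
  · simp only [Prod.snd_add, Prod.smul_snd, smul_eq_mul]; ring

/-- If two points at the same height enclose a third then it belongs to `D`. -/
lemma PD.between (H : PD D M h x0) {x x' y z : ℝ} (h1 : (x, y) ∈ D) (h2 : (x', y) ∈ D)
    (hz1 : x ≤ z) (hz2 : z ≤ x') : (z, y) ∈ D := by
  rcases eq_or_lt_of_le (hz1.trans hz2) with h3 | h3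
  · have : z = x := by linarith
    rw [this]; exact h1
  · have := H.comb h1 h2 (a := x' - z) (b := z - x) (by linarith) (by linarith) (by linarith)
    convert this using 2
    · rw [eq_div_iff (by linarith)]; ring
    · rw [eq_div_iff (by linarith)]; ring

/-- The section at height `M` lies strictly between `0` and `M`. -/
lemma PD.top (H : PD D M h x0) {r : ℝ} (hr : (r, M) ∈ D) : 0 < r ∧ r < M := by
  have hh : 0 < h := by linarith [H.hM, H.hh]
  have hP : (x0 * M / h, M) ∈ D := by
    have := H.comb H.pt (show ((0 : ℝ), (0 : ℝ)) ∈ D from H.zero) (a := M) (b := h - M) H.hM.le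
      (by linarith [H.hM, H.hh]) (by linarith)
    have e0 : M + (h - M) = h := by ring
    rw [e0] at this
    convert this using 2
    · ring
    · rw [eq_div_iff hh.ne']; ring
  have h1 : 0 < x0 * M / h := by have := H.pos; have := H.hM; positivity
  have h2 : x0 * M / h < M := by
    rw [div_lt_iff₀ hh]
    nlinarith [H.lt, H.hM]
  constructor
  · by_contra hcon
    have := H.between hr hP (z := 0) (by linarith) h1.le
    apply H.no 0 1 (by simp)
    simpa using this
  · by_contra hcon
    have := H.between hP hr (z := M) h2.le (by linarith)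
    apply H.no 1 1 (by simp)
    simpa using this

lemma PD.mid (H : PD D M h x0) {r : ℝ} (hr : (r, 0) ∈ D) : r < M := by
  by_contra hcon
  have := H.between (show ((0 : ℝ), (0 : ℝ)) ∈ D from H.zero) hr (z := M) H.hM.le (by linarith)
  apply H.no 1 0 (by simp)
  simpa using this

/-- A point with large abscissa has ordinate in `(0, M)`. -/
lemma PD.right (H : PD D M h x0) {x1 y1 : ℝ} (hB : (x1, y1) ∈ D) (hx : h ≤ x1)
    (hy : |y1| ≤ h) : 0 < y1 ∧ y1 < M := by
  have hh : 0 < h := by linarith [H.hM, H.hh]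
  have hM := H.hM
  have hh' := H.hh
  have hy' := abs_le.mp hy
  have c1 : y1 < M := by
    by_contra hcon
    push Not at hcon
    have hy1 : 0 < y1 := by linarith
    have := H.comb hB (show ((0 : ℝ), (0 : ℝ)) ∈ D from H.zero) (a := M) (b := y1 - M) hM.le
      (by linarith) (by linarith)
    have h2 : (x1 * M / y1, M) ∈ D := by
      convert this using 2
      · field_simp; ring
      · field_simp; ring
    have h3 := (H.top h2).2
    rw [div_lt_iff₀ hy1] at h3
    have h4 : x1 < y1 := by
      by_contra h5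
      push Not at h5
      nlinarith
    linarith
  have c2 : -M < y1 := by
    by_contra hcon
    push Not at hcon
    have hy1 : 0 < -y1 := by linarith
    have hB' := H.symm _ hB
    have hB'' : (-x1, -y1) ∈ D := by simpa using hB'
    have := H.comb hB'' (show ((0 : ℝ), (0 : ℝ)) ∈ D from H.zero) (a := M) (b := -y1 - M) hM.le
      (by linarith) (by linarith)
    have h2 : (-x1 * M / (-y1), M) ∈ D := by
      convert this using 2
      · rw [show M + (-y1 - M) = -y1 by ring]; ring
      · rw [show M + (-y1 - M) = -y1 by ring, eq_div_iff hy1.ne']; ring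
    have h3 := (H.top h2).1
    have h4 : -x1 * M / (-y1) < 0 := by
      apply div_neg_of_neg_of_pos _ hy1
      nlinarith
    linarith
  refine ⟨?_, c1⟩
  by_contra hcon
  push Not at hcon
  obtain ⟨w, hw⟩ : ∃ w, w = -y1 := ⟨_, rfl⟩
  have hw0 : 0 ≤ w := by linarith
  have hwM : w < M := by linarith
  have hB' : (-x1, w) ∈ D := by
    have := H.symm _ hB
    rw [hw]; simpa using this
  have hBw : (x1, -w) ∈ D := by rw [hw]; simpa using hB
  have hx1 : 0 < x1 := by linarith
  -- first crossing
  have e1 : x1 * (h - M) < (M - w) * x0 := by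
    have := H.comb hB' H.pt (a := h - M) (b := M - w) (by linarith) (by linarith) (by linarith)
    have h2 : (((h - M) * -x1 + (M - w) * x0) / (h - w), M) ∈ D := by
      convert this using 2
      · congr 1; ring
      · rw [eq_div_iff (by linarith)]; ring
    have h3 := (H.top h2).1
    have h4 : 0 < h - w := by linarith
    rw [lt_div_iff₀ h4] at h3
    linarith
  have e2 : (x1 - M) * h < w * (M - x0) := by
    have := H.comb hBw H.pt (a := h) (b := w) (by linarith) (by linarith) (by linarith)
    have h2 : ((h * x1 + w * x0) / (h + w), 0) ∈ D := by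
      convert this using 2
      rw [eq_div_iff (by linarith)]; ring
    have h3 := H.mid h2
    have h4 : 0 < h + w := by linarith
    rw [div_lt_iff₀ h4] at h3
    linarith
  have e3 : 4 / 9 * M ^ 2 < (M - w) * x0 := by nlinarith
  have e4 : 4 / 9 * M ^ 2 < w * (M - x0) := by nlinarith
  have hx0 := H.pos
  have hx0M : x0 < M := by
    by_contra h5
    push Not at h5
    nlinarith [mul_nonneg hw0 (sub_nonneg.mpr h5)]
  have s1 : 4 / 3 * M < (M - w) + x0 := by
    by_contra h5
    push Not at h5
    nlinarith [sq_nonneg ((M - w) - x0)]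
  have s2 : 4 / 3 * M < w + (M - x0) := by
    by_contra h5
    push Not at h5
    nlinarith [sq_nonneg (w - (M - x0))]
  linarith

lemma PD.right_ineq (H : PD D M h x0) {x1 y1 : ℝ} (hB : (x1, y1) ∈ D) (hx : h ≤ x1)
    (hy : |y1| ≤ h) : (x1 - M) * (h - M) < (M - y1) * (M - x0) := by
  obtain ⟨h1, h2⟩ := H.right hB hx hy
  have hM := H.hM
  have hh' := H.hh
  have := H.comb hB H.pt (a := h - M) (b := M - y1) (by linarith) (by linarith) (by linarith)
  have h2 : (((h - M) * x1 + (M - y1) * x0) / (h - y1), M) ∈ D := by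
    convert this using 2
    · congr 1; ring
    · rw [eq_div_iff (by linarith)]; ring
  have h3 := (H.top h2).2
  have h4 : 0 < h - y1 := by linarith
  rw [div_lt_iff₀ h4] at h3
  linarith

/-- The mirror image `(x, y) ↦ (y - x, y)`. -/
lemma PD.mirror (H : PD D M h x0) : PD {p : ℝ × ℝ | (p.2 - p.1, p.2) ∈ D} M h (h - x0) where
  hM := H.hM
  hh := H.hh
  conv := by
    intro p hp q hq a b ha hb hab
    have := H.conv hp hq ha hb hab
    simp only [mem_ofPred_eq] at *
    convert this using 1
    ext
    · simp only [Prod.snd_add, Prod.smul_snd, smul_eq_mul, Prod.fst_add, Prod.smul_fst]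
      ring
    · simp only [Prod.snd_add, Prod.smul_snd, smul_eq_mul]
  symm := by
    intro p hp
    have := H.symm _ hp
    simp only [mem_ofPred_eq] at *
    convert this using 1
    ext
    · simp only [Prod.fst_neg, Prod.snd_neg]
      ring
    · simp only [Prod.snd_neg]
  no := by
    intro i j hij hmem
    simp only [mem_ofPred_eq] at hmem
    apply H.no (j - i) j
    · intro h1
      apply hij
      simp only [Prod.mk.injEq] at h1 ⊢
      omega
    · convert hmem using 2
      push_cast; ring
  pt := by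
    simp only [mem_ofPred_eq]
    convert H.pt using 2
    ring
  pos := by linarith [H.lt]
  lt := by linarith [H.pos]

lemma final_ineq {M p q X Y : ℝ} (hM : 0 < M) (hp : 0 < p) (hq : 0 < q) (hX : 0 < X)
    (hY : 0 < Y) (hXY : X + Y ≤ 2 * M / 3) (h1 : M ^ 2 / 9 < p * X) (h2 : M ^ 2 / 9 < q * Y) :
    2 * M / 3 < p + q := by
  by_contra hcon
  push Not at hcon
  have a1 : p * q ≤ M ^ 2 / 9 := by nlinarith [sq_nonneg (p - q)]
  have a2 : X * Y ≤ M ^ 2 / 9 := by nlinarith [sq_nonneg (X - Y)]
  have a3 : (M ^ 2 / 9) * (M ^ 2 / 9) < (p * X) * (q * Y) :=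
    mul_lt_mul'' h1 h2 (by positivity) (by positivity)
  have a4 : (p * q) * (X * Y) ≤ (M ^ 2 / 9) * (M ^ 2 / 9) :=
    mul_le_mul a1 a2 (by positivity) (by positivity)
  nlinarith

/-- The planar flatness lemma. -/
theorem PD.false (H : PD D M h x0) {x1 y1 x2 y2 : ℝ} (hB : (x1, y1) ∈ D) (hx1 : h ≤ x1)
    (hy1 : |y1| ≤ h) (hC : (x2, y2) ∈ D) (hx2 : h ≤ x2 - y2) (hy2 : |y2| ≤ h) : False := by
  have hM := H.hM
  have hh' := H.hh
  obtain ⟨b1, b2⟩ := H.right hB hx1 hy1
  have i1 := H.right_ineq hB hx1 hy1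
  have hC' : (x2 - y2, -y2) ∈ {p : ℝ × ℝ | (p.2 - p.1, p.2) ∈ D} := by
    have := H.symm _ hC
    simp only [mem_ofPred_eq]
    convert this using 1
    ext
    · simp only [Prod.fst_neg]; ring
    · simp only [Prod.snd_neg]
  obtain ⟨v, hv⟩ : ∃ v, v = -y2 := ⟨_, rfl⟩
  obtain ⟨x', hx'⟩ : ∃ x', x' = x2 - y2 := ⟨_, rfl⟩
  rw [← hv, ← hx'] at hC'
  have hyv : |v| ≤ h := by rw [hv, abs_neg]; exact hy2
  obtain ⟨c1, c2⟩ := H.mirror.right hC' (by linarith) hyv
  have i2 := H.mirror.right_ineq hC' (by linarith) hyv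
  have hCv : (x' - v, -v) ∈ D := by
    have e1 : x' - v = x2 := by rw [hv, hx']; ring
    rw [e1, hv]; simpa using hC
  have i3 : v * (x1 - M) < y1 * (M - (x' - v)) := by
    have := H.comb hCv hB (a := y1) (b := v) (by linarith) (by linarith) (by linarith)
    have h2 : ((y1 * (x' - v) + v * x1) / (y1 + v), 0) ∈ D := by
      convert this using 2
      rw [eq_div_iff (by linarith)]; ring
    have h3 := H.mid h2
    rw [div_lt_iff₀ (by linarith)] at h3
    linarith
  have hx'h : h ≤ x' := by linarith
  -- normalise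
  have j1 : M ^ 2 / 9 < (M - y1) * (M - x0) := by nlinarith
  have j2 : M ^ 2 / 9 < (M - v) * (x0 - M / 3) := by
    have k1 : M ^ 2 / 9 ≤ (x' - M) * (h - M) := by nlinarith
    have k2 : (M - v) * (M - (h - x0)) ≤ (M - v) * (x0 - M / 3) :=
      mul_le_mul_of_nonneg_left (by linarith) (by linarith)
    linarith
  have hX : 0 < M - x0 := by
    by_contra hc
    push Not at hc
    nlinarith [mul_nonneg (sub_nonneg.mpr b2.le) (neg_nonneg.mpr hc)]
  have hY : 0 < x0 - M / 3 := by
    by_contra hc
    push Not at hc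
    nlinarith [mul_nonneg (sub_nonneg.mpr c2.le) (neg_nonneg.mpr hc)]
  have s1 : 2 * M / 3 < (M - y1) + (M - v) :=
    final_ineq hM (by linarith) (by linarith) hX hY (by linarith) j1 j2
  have j3 : (v + y1) * (M / 3) < y1 * v := by
    have k1 : v * (M / 3) ≤ v * (x1 - M) := mul_le_mul_of_nonneg_left (by linarith) (by linarith)
    have k2 : y1 * (M - (x' - v)) ≤ y1 * (v - M / 3) :=
      mul_le_mul_of_nonneg_left (by linarith) (by linarith)
    linarith
  have j4 : 4 * (y1 * v) ≤ (v + y1) ^ 2 := by nlinarith [sq_nonneg (v - y1)]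
  have j5 : 4 * M / 3 < v + y1 := by
    have : (v + y1) * (4 * M / 3) < (v + y1) * (v + y1) := by nlinarith
    exact lt_of_mul_lt_mul_left this (by linarith)
  linarith

end Pool.Agent.Work.MP_b10815_co_helper58
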