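import Pool.Agent.Work.MP_b10815_co_helper58.Chord
import Pool.Agent.Work.MP_b10815_co_helper58.Planar

set_option autoImplicit false

namespace Pool.Agent.Work.MP_b10815_co_helper58

open Set

/-- The embedding of the integer lattice in the plane. -/
def emb (p : ℤ × ℤ) : ℝ × ℝ := ((p.1 : ℝ), (p.2 : ℝ))

/-- Lattice-convex sets of integer points. -/
def LC (S : Set (ℤ × ℤ)) : Prop :=
  ∀ z : ℤ × ℤ, emb z ∈ convexHull ℝ (emb '' S) → z ∈ S

/-- No line contains more than `M` points of the (lattice-convex) set `S`. -/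
def NoChord (S : Set (ℤ × ℤ)) (M : ℤ) : Prop :=
  ∀ p i j, (i, j) ≠ ((0 : ℤ), (0 : ℤ)) → p ∈ S → (p.1 + M * i, p.2 + M * j) ∉ S

/-- The integer form `(u, v)` takes values in an interval of length `w` on `S`. -/
def InSlab (S : Set (ℤ × ℤ)) (u v c w : ℤ) : Prop :=
  ∀ p ∈ S, c ≤ u * p.1 + v * p.2 ∧ u * p.1 + v * p.2 ≤ c + w

/-- Integer combinations of three points. -/
lemma LC.three {S : Set (ℤ × ℤ)} (h : LC S) {p q r : ℤ × ℤ} (z : ℤ × ℤ) (a b c : ℤ)
    (hp : p ∈ S) (hq : q ∈ S) (hr : r ∈ S) (ha : 0 ≤ a) (hb : 0 ≤ b) (hc : 0 ≤ c)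
    (hn : 0 < a + b + c) (h1 : (a + b + c) * z.1 = a * p.1 + b * q.1 + c * r.1)
    (h2 : (a + b + c) * z.2 = a * p.2 + b * q.2 + c * r.2) : z ∈ S := by
  apply h
  have hn' : (0 : ℝ) < (a : ℝ) + b + c := by exact_mod_cast hn
  have ha' : (0 : ℝ) ≤ a := by exact_mod_cast ha
  have hb' : (0 : ℝ) ≤ b := by exact_mod_cast hb
  have hc' : (0 : ℝ) ≤ c := by exact_mod_cast hc
  have h1' : ((a : ℝ) + b + c) * z.1 = a * p.1 + b * q.1 + c * r.1 := by exact_mod_cast h1
  have h2' : ((a : ℝ) + b + c) * z.2 = a * p.2 + b * q.2 + c * r.2 := by exact_mod_cast h2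
  have hsub := subset_convexHull ℝ (emb '' S)
  have hconv := convex_convexHull ℝ (emb '' S)
  have mp := hsub (mem_image_of_mem emb hp)
  have mq := hsub (mem_image_of_mem emb hq)
  have mr := hsub (mem_image_of_mem emb hr)
  rcases eq_or_lt_of_le (add_nonneg ha' hb') with h0 | h0
  · have ha0 : (a : ℝ) = 0 := by linarith
    have hb0 : (b : ℝ) = 0 := by linarith
    have hc0 : (c : ℝ) ≠ 0 := by intro h3; rw [ha0, hb0, h3] at hn'; simp at hn'
    have e1 : (z.1 : ℝ) = r.1 := by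
      rw [ha0, hb0] at h1'
      have : (c : ℝ) * z.1 = c * r.1 := by linarith
      exact mul_left_cancel₀ hc0 this
    have e2 : (z.2 : ℝ) = r.2 := by
      rw [ha0, hb0] at h2'
      have : (c : ℝ) * z.2 = c * r.2 := by linarith
      exact mul_left_cancel₀ hc0 this
    have : emb z = emb r := by unfold emb; rw [e1, e2]
    rw [this]; exact mr
  · have m1 := hconv mp mq (a := a / (a + b)) (b := b / (a + b)) (by positivity) (by positivity)
      (by field_simp)
    have m2 := hconv m1 mr (a := (a + b) / (a + b + c)) (b := c / (a + b + c)) (by positivity)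
      (by positivity) (by field_simp)
    convert m2 using 1
    unfold emb
    ext
    · simp only [Prod.fst_add, Prod.smul_fst, smul_eq_mul]
      field_simp
      linarith
    · simp only [Prod.snd_add, Prod.smul_snd, smul_eq_mul]
      field_simp
      linarith

/-- The difference body of the hull contains no nonzero point of `M ℤ²`. -/
lemma no_diff {S : Set (ℤ × ℤ)} (hfin : S.Finite) (hLC : LC S) {M : ℤ} (hM : 1 ≤ M)
    (hno : NoChord S M) (i j : ℤ) (hij : (i, j) ≠ (0, 0)) (q : ℝ × ℝ)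
    (hq : q ∈ convexHull ℝ (emb '' S)) :
    q + ((M * i, M * j) : ℝ × ℝ) ∉ convexHull ℝ (emb '' S) := by
  intro hp
  have hc : IsCompact (convexHull ℝ (emb '' S)) := (hfin.image emb).isCompact_convexHull (𝕜 := ℝ)
  have hz : (((i : ℝ), (j : ℝ)) : ℝ × ℝ) ≠ 0 := by
    intro h
    apply hij
    have h1 : (i : ℝ) = 0 := congrArg Prod.fst h
    have h2 : (j : ℝ) = 0 := congrArg Prod.snd h
    rw [Prod.mk.injEq]
    exact ⟨by exact_mod_cast h1, by exact_mod_cast h2⟩
  have hM0 : (0 : ℝ) ≤ M := by exact_mod_cast (by omega : (0 : ℤ) ≤ M)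
  have e : ((M * i, M * j) : ℝ × ℝ) = (M : ℝ) • ((i : ℝ), (j : ℝ)) := by
    simp [Prod.smul_mk]
  rw [e] at hp
  obtain ⟨v, hv, hv'⟩ := chord_extreme hc (convex_convexHull ℝ _) hz hM0 hq hp
  obtain ⟨p, hpS, rfl⟩ := extremePoints_convexHull_subset hv
  rcases hv' with h | h
  · apply hno p i j hij hpS
    apply hLC
    convert h using 1
    unfold emb
    ext <;> simp
  · apply hno p (-i) (-j) ?_ hpS
    · apply hLC
      convert h using 1
      unfold emb
      ext
      · simp; ring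
      · simp; ring
    · intro h1
      apply hij
      simp only [Prod.mk.injEq, neg_eq_zero] at h1 ⊢
      exact h1

lemma exists_wide {S : Set (ℤ × ℤ)} (hfin : S.Finite) (hne : S.Nonempty) {w0 : ℤ}
    (hmin : ∀ u v c w : ℤ, (u, v) ≠ (0, 0) → InSlab S u v c w → w0 ≤ w) (u v : ℤ)
    (huv : (u, v) ≠ (0, 0)) :
    ∃ p ∈ S, ∃ q ∈ S, w0 ≤ (u * p.1 + v * p.2) - (u * q.1 + v * q.2) := by
  obtain ⟨p, hp, hpm⟩ := exists_max_image S (fun p => u * p.1 + v * p.2) hfin hne
  obtain ⟨q, hq, hqm⟩ := exists_min_image S (fun p => u * p.1 + v * p.2) hfin hne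
  refine ⟨p, hp, q, hq, ?_⟩
  apply hmin u v (u * q.1 + v * q.2) _ huv
  intro r hr
  have h1 := hpm r hr
  have h2 := hqm r hr
  constructor <;> linarith

lemma flat1 {S : Set (ℤ × ℤ)} (hfin : S.Finite) (hne : S.Nonempty) (hLC : LC S) {M : ℤ}
    (hM : 1 ≤ M) (hno : NoChord S M) {w0 : ℤ}
    (hmin : ∀ u v c w : ℤ, (u, v) ≠ (0, 0) → InSlab S u v c w → w0 ≤ w)
    {c0 : ℤ} (hs : InSlab S 0 1 c0 w0) {a a' : ℤ × ℤ} (ha : a ∈ S) (ha' : a' ∈ S)
    (haa : a.2 - a'.2 = w0) (h1 : 0 ≤ a.1 - a'.1) (h2 : a.1 - a'.1 < w0)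
    (hw : 4 * M ≤ 3 * w0) : False := by
  set Q := convexHull ℝ (emb '' S) with hQ
  set D : Set (ℝ × ℝ) := {x | ∃ q ∈ Q, q + x ∈ Q} with hD
  have hconvQ : Convex ℝ Q := convex_convexHull ℝ _
  have hDconv : Convex ℝ D := by
    rintro x ⟨q, hq, hqx⟩ y ⟨r, hr, hry⟩ s t hs ht hst
    refine ⟨s • q + t • r, hconvQ hq hr hs ht hst, ?_⟩
    have := hconvQ hqx hry hs ht hst
    convert this using 1
    rw [smul_add, smul_add]; abel
  have hDsymm : ∀ p ∈ D, -p ∈ D := by
    rintro x ⟨q, hq, hqx⟩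
    exact ⟨q + x, hqx, by simpa using hq⟩
  have hMR : (0 : ℝ) < M := by exact_mod_cast (by omega : (0 : ℤ) < M)
  have hwR : (4 : ℝ) * M ≤ 3 * w0 := by exact_mod_cast hw
  have hDno : ∀ i j : ℤ, (i, j) ≠ (0, 0) → (((M : ℝ) * i, (M : ℝ) * j) : ℝ × ℝ) ∉ D := by
    rintro i j hij ⟨q, hq, hqx⟩
    exact no_diff hfin hLC hM hno i j hij q hq hqx
  have hmem : ∀ p ∈ S, ∀ q ∈ S, (((p.1 : ℝ) - q.1, (p.2 : ℝ) - q.2) : ℝ × ℝ) ∈ D := by
    intro p hp q hq
    refine ⟨emb q, subset_convexHull ℝ _ (mem_image_of_mem emb hq), ?_⟩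
    have : emb q + (((p.1 : ℝ) - q.1, (p.2 : ℝ) - q.2) : ℝ × ℝ) = emb p := by
      unfold emb; ext <;> simp
    rw [this]
    exact subset_convexHull ℝ _ (mem_image_of_mem emb hp)
  have hA := hmem a ha a' ha'
  have haaR : (a.2 : ℝ) - a'.2 = w0 := by exact_mod_cast haa
  rw [haaR] at hA
  have hzero : (0 : ℝ × ℝ) ∈ D := by
    obtain ⟨p, hp⟩ := hne
    have := hmem p hp p hp
    convert this using 1
    ext <;> simp
  have hpos : (0 : ℝ) < (a.1 : ℝ) - a'.1 := by
    have h3 : (0 : ℝ) ≤ (a.1 : ℝ) - a'.1 := by exact_mod_cast h1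
    rcases eq_or_lt_of_le h3 with h4 | h4
    · exfalso
      apply hDno 0 1 (by simp)
      rw [← h4] at hA
      have hw0 : (0 : ℝ) < w0 := by linarith
      have := hDconv hA hzero (a := M / w0) (b := 1 - M / w0) (by positivity)
        (by rw [sub_nonneg, div_le_one hw0]; linarith) (by ring)
      convert this using 1
      ext
      · simp
      · simp only [Int.cast_one, mul_one, Prod.snd_add, Prod.smul_snd, smul_eq_mul, Prod.snd_zero]
        field_simp
        simp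
    · exact h4
  have hlt : (a.1 : ℝ) - a'.1 < w0 := by exact_mod_cast h2
  have H : PD D M w0 ((a.1 : ℝ) - a'.1) :=
    ⟨hMR, hwR, hDconv, hDsymm, hDno, hA, hpos, hlt⟩
  have hy : ∀ p ∈ S, ∀ q ∈ S, |(p.2 : ℝ) - q.2| ≤ w0 := by
    intro p hp q hq
    have h3 := hs p hp
    have h4 := hs q hq
    rw [abs_le]
    constructor
    · have : -w0 ≤ p.2 - q.2 := by omega
      exact_mod_cast this
    · have : p.2 - q.2 ≤ w0 := by omega
      exact_mod_cast this
  obtain ⟨b, hb, b', hb', hbb⟩ := exists_wide hfin hne hmin 1 0 (by simp)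
  obtain ⟨c, hc, c', hc', hcc⟩ := exists_wide hfin hne hmin 1 (-1) (by simp)
  refine H.false (hmem b hb b' hb') ?_ (hy b hb b' hb') (hmem c hc c' hc') ?_ (hy c hc c' hc')
  · have : w0 ≤ b.1 - b'.1 := by linarith
    exact_mod_cast this
  · have : w0 ≤ (c.1 - c'.1) - (c.2 - c'.2) := by linarith
    exact_mod_cast this

/-! ### Unimodular changes of coordinates -/

/-- The point with coordinates `p` in the frame `(o; e, f)`. -/
def fr (o e f p : ℤ × ℤ) : ℤ × ℤ :=
  (o.1 + p.1 * e.1 + p.2 * f.1, o.2 + p.1 * e.2 + p.2 * f.2)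

/-- The set `S` in the frame `(o; e, f)`. -/
def pull (o e f : ℤ × ℤ) (S : Set (ℤ × ℤ)) : Set (ℤ × ℤ) := {p | fr o e f p ∈ S}

/-- coordinates of a point in the frame -/
def co (o e f q : ℤ × ℤ) : ℤ × ℤ :=
  (f.2 * (q.1 - o.1) - f.1 * (q.2 - o.2), -e.2 * (q.1 - o.1) + e.1 * (q.2 - o.2))

lemma fr_co {o e f : ℤ × ℤ} (hdet : e.1 * f.2 - e.2 * f.1 = 1) (q : ℤ × ℤ) :
    fr o e f (co o e f q) = q := by
  unfold fr co
  ext
  · simp only
    linear_combination (q.1 - o.1) * hdet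
  · simp only
    linear_combination (q.2 - o.2) * hdet

lemma co_fr {o e f : ℤ × ℤ} (hdet : e.1 * f.2 - e.2 * f.1 = 1) (p : ℤ × ℤ) :
    co o e f (fr o e f p) = p := by
  unfold fr co
  ext
  · simp only
    linear_combination p.1 * hdet
  · simp only
    linear_combination p.2 * hdet

lemma pull_finite {o e f : ℤ × ℤ} (hdet : e.1 * f.2 - e.2 * f.1 = 1) {S : Set (ℤ × ℤ)}
    (hS : S.Finite) : (pull o e f S).Finite := by
  apply hS.preimage
  intro p _ q _ h
  have := congrArg (co o e f) h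
  rwa [co_fr hdet, co_fr hdet] at this

lemma pull_nonempty {o e f : ℤ × ℤ} (hdet : e.1 * f.2 - e.2 * f.1 = 1) {S : Set (ℤ × ℤ)}
    (hS : S.Nonempty) : (pull o e f S).Nonempty := by
  obtain ⟨q, hq⟩ := hS
  refine ⟨co o e f q, ?_⟩
  change fr o e f (co o e f q) ∈ S
  rwa [fr_co hdet]

lemma pull_LC {o e f : ℤ × ℤ} {S : Set (ℤ × ℤ)} (hS : LC S) : LC (pull o e f S) := by
  intro z hz
  change fr o e f z ∈ S
  apply hS
  -- the real affine map
  let φ : (ℝ × ℝ) →ₗ[ℝ] (ℝ × ℝ) :=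
    { toFun := fun p => (p.1 * e.1 + p.2 * f.1, p.1 * e.2 + p.2 * f.2)
      map_add' := by
        intro x y
        ext
        · simp only [Prod.fst_add, Prod.snd_add]; ring
        · simp only [Prod.fst_add, Prod.snd_add]; ring
      map_smul' := by
        intro c x
        ext
        · simp only [Prod.smul_fst, Prod.smul_snd, smul_eq_mul, RingHom.id_apply]; ring
        · simp only [Prod.smul_fst, Prod.smul_snd, smul_eq_mul, RingHom.id_apply]; ring }
  have hconv : Convex ℝ {p : ℝ × ℝ | emb o + φ p ∈ convexHull ℝ (emb '' S)} := by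
    intro x hx y hy a b ha hb hab
    have := convex_convexHull ℝ (emb '' S) hx hy ha hb hab
    simp only [mem_ofPred_eq]
    convert this using 1
    rw [map_add, map_smul, map_smul, smul_add, smul_add]
    have h1 : emb o = a • emb o + b • emb o := by rw [← add_smul, hab, one_smul]
    nth_rewrite 1 [h1]
    abel
  have hsub : emb '' (pull o e f S) ⊆ {p : ℝ × ℝ | emb o + φ p ∈ convexHull ℝ (emb '' S)} := by
    rintro _ ⟨p, hp, rfl⟩
    simp only [mem_ofPred_eq]
    have h1 : emb o + φ (emb p) = emb (fr o e f p) := by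
      unfold emb fr
      ext
      · simp [φ]; ring
      · simp [φ]; ring
    rw [h1]
    exact subset_convexHull ℝ _ (mem_image_of_mem emb hp)
  have h2 := convexHull_min hsub hconv hz
  simp only [mem_ofPred_eq] at h2
  have h1 : emb o + φ (emb z) = emb (fr o e f z) := by
    unfold emb fr
    ext
    · simp [φ]; ring
    · simp [φ]; ring
  rwa [h1] at h2

lemma pull_noChord {o e f : ℤ × ℤ} (hdet : e.1 * f.2 - e.2 * f.1 = 1) {S : Set (ℤ × ℤ)}
    {M : ℤ} (hS : NoChord S M) : NoChord (pull o e f S) M := by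
  intro p i j hij hp hq
  apply hS (fr o e f p) (i * e.1 + j * f.1) (i * e.2 + j * f.2) ?_ hp
  · have : fr o e f (p.1 + M * i, p.2 + M * j) ∈ S := hq
    convert this using 1
    unfold fr
    ext
    · simp only; ring
    · simp only; ring
  · intro h
    apply hij
    simp only [Prod.mk.injEq] at h ⊢
    obtain ⟨h1, h2⟩ := h
    constructor
    · linear_combination f.2 * h1 - f.1 * h2 - i * hdet
    · linear_combination e.1 * h2 - e.2 * h1 - j * hdet

lemma slab_of_pull {o e f : ℤ × ℤ} (hdet : e.1 * f.2 - e.2 * f.1 = 1) {S : Set (ℤ × ℤ)}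
    {u v c w : ℤ} (huv : (u, v) ≠ (0, 0)) (h : InSlab (pull o e f S) u v c w) :
    ∃ u' v' c' : ℤ, (u', v') ≠ (0, 0) ∧ InSlab S u' v' c' w := by
  refine ⟨u * f.2 - v * e.2, v * e.1 - u * f.1,
    c + (u * f.2 - v * e.2) * o.1 + (v * e.1 - u * f.1) * o.2, ?_, ?_⟩
  · intro h0
    apply huv
    simp only [Prod.mk.injEq] at h0 ⊢
    obtain ⟨h1, h2⟩ := h0
    constructor
    · linear_combination e.1 * h1 + e.2 * h2 - u * hdet
    · linear_combination f.1 * h1 + f.2 * h2 - v * hdet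
  · intro q hq
    have h1 := h (co o e f q) (by change fr o e f (co o e f q) ∈ S; rwa [fr_co hdet])
    unfold co at h1
    simp only at h1
    constructor
    · linarith [h1.1]
    · linarith [h1.2]

/-- The sharp planar flatness theorem for lattice-convex sets. -/
theorem flat {S : Set (ℤ × ℤ)} (hfin : S.Finite) (hne : S.Nonempty) (hLC : LC S) {M : ℤ}
    (hM : 1 ≤ M) (hno : NoChord S M) :
    ∃ u v c w : ℤ, (u, v) ≠ (0, 0) ∧ InSlab S u v c w ∧ 3 * w < 4 * M := by
  classical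
  -- slabs have nonnegative width
  have hw0 : ∀ u v c w : ℤ, InSlab S u v c w → 0 ≤ w := by
    intro u v c w h
    obtain ⟨p, hp⟩ := hne
    have := h p hp
    linarith [this.1, this.2]
  have hex : ∃ n : ℕ, ∃ u v c : ℤ, (u, v) ≠ (0, 0) ∧ InSlab S u v c n := by
    obtain ⟨p, hp, hpm⟩ := exists_max_image S (fun p => p.1) hfin hne
    obtain ⟨q, hq, hqm⟩ := exists_min_image S (fun p => p.1) hfin hne
    refine ⟨(p.1 - q.1).toNat, 1, 0, q.1, by simp, ?_⟩
    intro r hr
    have h1 := hpm r hr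
    have h2 := hqm r hr
    have h3 : ((p.1 - q.1).toNat : ℤ) = p.1 - q.1 := Int.toNat_of_nonneg (by linarith)
    rw [h3]
    constructor <;> linarith
  obtain ⟨u0, v0, c0, huv0, hs0⟩ := Nat.find_spec hex
  set n0 := Nat.find hex with hn0
  have hmin : ∀ u v c w : ℤ, (u, v) ≠ (0, 0) → InSlab S u v c w → (n0 : ℤ) ≤ w := by
    intro u v c w huv h
    have h1 := hw0 u v c w h
    have h2 : n0 ≤ w.toNat := by
      apply Nat.find_min' hex
      refine ⟨u, v, c, huv, ?_⟩
      rw [Int.toNat_of_nonneg h1]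
      exact h
    omega
  by_contra hcon
  push Not at hcon
  have hbig : 4 * M ≤ 3 * (n0 : ℤ) := hcon u0 v0 c0 n0 huv0 hs0
  -- primitivity
  have hgcd : Int.gcd u0 v0 = 1 := by
    by_contra hg
    have hg0 : Int.gcd u0 v0 ≠ 0 := by
      rw [Ne, Int.gcd_eq_zero_iff]
      rintro ⟨rfl, rfl⟩
      exact huv0 rfl
    obtain ⟨d, hd⟩ : ∃ d : ℤ, d = ((Int.gcd u0 v0 : ℕ) : ℤ) := ⟨_, rfl⟩
    have hd2 : 2 ≤ d := by omega
    obtain ⟨u', hu'⟩ : d ∣ u0 := by rw [hd]; exact Int.gcd_dvd_left u0 v0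
    obtain ⟨v', hv'⟩ : d ∣ v0 := by rw [hd]; exact Int.gcd_dvd_right u0 v0
    have huv' : (u', v') ≠ (0, 0) := by
      intro h
      simp only [Prod.mk.injEq] at h
      apply huv0
      rw [hu', hv', h.1, h.2]; simp
    have hslab : InSlab S u' v' (-((-c0) / d)) ((n0 : ℤ) / d) := by
      intro p hp
      have h1 := hs0 p hp
      rw [hu', hv'] at h1
      obtain ⟨h1, h2⟩ := h1
      set X := u' * p.1 + v' * p.2 with hX
      have e : d * u' * p.1 + d * v' * p.2 = d * X := by rw [hX]; ring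
      rw [e] at h1 h2
      have hd0 : 0 < d := by omega
      have k1 : -X ≤ (-c0) / d := by
        rw [Int.le_ediv_iff_mul_le hd0]; nlinarith
      have k2 : d * ((-c0) / d) ≤ -c0 := Int.mul_ediv_self_le hd0.ne'
      have k3 : X + (-c0) / d ≤ (n0 : ℤ) / d := by
        rw [Int.le_ediv_iff_mul_le hd0]; nlinarith
      constructor <;> linarith
    have h3 := hmin _ _ _ _ huv' hslab
    have h4 : (n0 : ℤ) / d < n0 := by
      apply Int.ediv_lt_self_of_pos_of_ne_one
      · omega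
      · omega
    omega
  -- Bezout
  obtain ⟨s, t, hst⟩ : ∃ s t : ℤ, u0 * s + v0 * t = 1 := by
    have := Int.gcd_eq_gcd_ab u0 v0
    rw [hgcd] at this
    exact ⟨_, _, by exact_mod_cast this.symm⟩
  obtain ⟨a, ha, a', ha', haa⟩ := exists_wide hfin hne hmin u0 v0 huv0
  have haa' : u0 * (a.1 - a'.1) + v0 * (a.2 - a'.2) = n0 := by
    have h1 := hs0 a ha
    have h2 := hs0 a' ha'
    apply le_antisymm
    · linarith [h1.1, h1.2, h2.1, h2.2]
    · linarith
  -- the frame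
  obtain ⟨X0, hX0⟩ : ∃ X0, X0 = t * (a.1 - a'.1) - s * (a.2 - a'.2) := ⟨_, rfl⟩
  have hn0pos : (0 : ℤ) < n0 := by omega
  set n := X0 / (n0 : ℤ) with hn
  set e : ℤ × ℤ := (v0, -u0) with he
  set f : ℤ × ℤ := (s + n * v0, t - n * u0) with hf
  have hdet : e.1 * f.2 - e.2 * f.1 = 1 := by
    rw [he, hf]; simp only; linear_combination hst
  have co_sub : ∀ q : ℤ × ℤ, (co 0 e f q).2 = u0 * q.1 + v0 * q.2 := by
    intro q; unfold co; rw [he]; simp
  have co_fst : ∀ q : ℤ × ℤ, (co 0 e f q).1 = t * q.1 - s * q.2 - n * (u0 * q.1 + v0 * q.2) := by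
    intro q; unfold co; rw [hf]; simp only [Prod.fst_zero, Prod.snd_zero]; ring
  have hmem : ∀ q ∈ S, co 0 e f q ∈ pull 0 e f S := by
    intro q hq
    change fr 0 e f (co 0 e f q) ∈ S
    rwa [fr_co hdet]
  have hmin' : ∀ u v c w : ℤ, (u, v) ≠ (0, 0) → InSlab (pull 0 e f S) u v c w →
      (n0 : ℤ) ≤ w := by
    intro u v c w huv h
    obtain ⟨u', v', c', h1, h2⟩ := slab_of_pull hdet huv h
    exact hmin u' v' c' w h1 h2
  have hs' : InSlab (pull 0 e f S) 0 1 c0 n0 := by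
    intro p hp
    have h1 := hs0 _ hp
    unfold fr at h1
    rw [he, hf] at h1
    simp only [Prod.fst_zero, Prod.snd_zero] at h1
    have e1 : u0 * (0 + p.1 * v0 + p.2 * (s + n * v0)) +
        v0 * (0 + p.1 * -u0 + p.2 * (t - n * u0)) = p.2 := by linear_combination p.2 * hst
    rw [e1] at h1
    simpa using h1
  refine flat1 (pull_finite hdet hfin) (pull_nonempty hdet hne) (pull_LC hLC) hM
    (pull_noChord hdet hno) hmin' hs' (hmem a ha) (hmem a' ha') ?_ ?_ ?_ hbig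
  · rw [co_sub, co_sub]; linear_combination haa'
  · rw [co_fst, co_fst]
    have h1 : n * n0 ≤ X0 := Int.ediv_mul_le _ hn0pos.ne'
    have h2 : t * a.1 - s * a.2 - n * (u0 * a.1 + v0 * a.2) -
      (t * a'.1 - s * a'.2 - n * (u0 * a'.1 + v0 * a'.2)) = X0 - n * n0 := by
      rw [hX0]; linear_combination (-n) * haa'
    rw [h2]; linarith
  · rw [co_fst, co_fst]
    have h1 : X0 < (n + 1) * n0 := Int.lt_ediv_add_one_mul_self _ hn0pos
    have h2 : t * a.1 - s * a.2 - n * (u0 * a.1 + v0 * a.2) -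
      (t * a'.1 - s * a'.2 - n * (u0 * a'.1 + v0 * a'.2)) = X0 - n * n0 := by
      rw [hX0]; linear_combination (-n) * haa'
    rw [h2]; linarith

end Pool.Agent.Work.MP_b10815_co_helper58
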