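import Pool.Agent.Work.MP_b10815_co_helper58.Flat

set_option autoImplicit false

namespace Pool.Agent.Work.MP_b10815_co_helper58

open Set

/-- Row `y` of `S` has at most `s` points (no `s + 1` consecutive points). -/
def RowLe (S : Set (ℤ × ℤ)) (y s : ℤ) : Prop :=
  ∀ p : ℤ, ∃ i, 0 ≤ i ∧ i ≤ s ∧ (p + i, y) ∉ S

/-- A normalised counterexample: row `0` is a longest chord, from `(0,0)` to `(l,0)`; no slab
of at most `5N/3` lines contains `S`; rows run from `-a` to `b`. -/
structure Geo (S : Set (ℤ × ℤ)) (l N a b : ℤ) : Prop where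
  lc : LC S
  no : NoChord S (l + 1)
  o : ((0, 0) : ℤ × ℤ) ∈ S
  ol : ((l, 0) : ℤ × ℤ) ∈ S
  hl : 2 ≤ l
  bad : ∀ u v c w : ℤ, (u, v) ≠ (0, 0) → InSlab S u v c w → 5 * N < 3 * (w + 1)
  top : ∀ p ∈ S, p.2 ≤ b
  bot : ∀ p ∈ S, -a ≤ p.2
  apx : ∃ x : ℤ, (x, b) ∈ S
  apx' : ∃ x : ℤ, (x, -a) ∈ S

namespace Geo

variable {S : Set (ℤ × ℤ)} {l N a b : ℤ}

lemma b0 (G : Geo S l N a b) : 0 ≤ b := G.top _ G.o

lemma a0 (G : Geo S l N a b) : 0 ≤ a := by have := G.bot _ G.o; simp only at this; linarith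

/-- Rows are contiguous. -/
lemma contig (G : Geo S l N a b) {x x' z y : ℤ} (h1 : (x, y) ∈ S) (h2 : (x', y) ∈ S)
    (hz : x ≤ z) (hz' : z ≤ x') : (z, y) ∈ S := by
  rcases eq_or_lt_of_le (hz.trans hz') with h | h
  · have : z = x := by omega
    rw [this]; exact h1
  · exact G.lc.three (z, y) (x' - z) (z - x) 0 h1 h2 h2 (by omega) (by omega) (by omega)
      (by omega) (by simp only; ring) (by simp only; ring)

lemma row0_mem (G : Geo S l N a b) {i : ℤ} (h : 0 ≤ i) (h' : i ≤ l) : (i, 0) ∈ S :=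
  G.contig G.o G.ol h h'

lemma row0_le (G : Geo S l N a b) {i : ℤ} (h : (i, 0) ∈ S) : 0 ≤ i ∧ i ≤ l := by
  constructor
  · by_contra hc
    have h1 : (-1, 0) ∈ S := G.contig h G.o (by omega) (by omega)
    apply G.no (-1, 0) 1 0 (by simp) h1
    convert G.ol using 2
    · simp only; ring
    · simp
  · by_contra hc
    have h1 : (l + 1, 0) ∈ S := G.contig G.o h (by have := G.hl; omega) (by omega)
    apply G.no (0, 0) 1 0 (by simp) G.o
    convert h1 using 2
    · simp only; ring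
    · simp

/-- The triangle over row `0`. -/
lemma fill (G : Geo S l N a b) {x y i j : ℤ} (h : (x, y) ∈ S) (hj : 0 ≤ j)
    (hy : 0 < y) (h1 : x * j ≤ i * y) (h2 : i * y ≤ l * y - (l - x) * j) : (i, j) ∈ S := by
  have hl := G.hl
  have hly : 0 < l * y := by positivity
  apply G.lc.three (i, j) (l * j) (i * y - x * j) (l * (y - j) - (i * y - x * j)) h G.ol G.o
    (by positivity) (by linarith) (by nlinarith) (by nlinarith)
  · simp only; ring
  · simp only; ring

lemma ineq (G : Geo S l N a b) {x y j s : ℤ} (h : (x, y) ∈ S) (hj : 1 ≤ j) (hjy : j ≤ y)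
    (hr : RowLe S j s) : y * (l - 1 - s) + 2 ≤ l * j := by
  by_contra hc
  push Not at hc
  have hy : 0 < y := by omega
  have d1 := Int.emod_add_mul_ediv (-(x * j)) y
  have d2 := Int.emod_nonneg (-(x * j)) hy.ne'
  have d3 := Int.emod_lt_of_pos (-(x * j)) hy
  obtain ⟨u, hu⟩ : ∃ u, u = -((-(x * j)) / y) := ⟨_, rfl⟩
  have hu' : (-(x * j)) / y = -u := by omega
  rw [hu'] at d1
  have e1 : x * j ≤ u * y := by nlinarith
  have e2 : u * y < x * j + y := by nlinarith
  obtain ⟨i, hi0, his, hi⟩ := hr u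
  apply hi
  have e3 : i * y ≤ s * y := mul_le_mul_of_nonneg_right his hy.le
  have e4 : 0 ≤ i * y := by positivity
  apply G.fill h (by omega) hy
  · linarith
  · nlinarith

lemma row_form (G : Geo S l N a b) {y s : ℤ} (hs : 1 ≤ s) (h1 : RowLe S y s)
    (h2 : ¬ RowLe S y (s - 1)) : ∃ p : ℤ, ∀ x : ℤ, (x, y) ∈ S ↔ p ≤ x ∧ x ≤ p + s - 1 := by
  unfold RowLe at h2
  push Not at h2
  obtain ⟨p, hp⟩ := h2
  refine ⟨p, fun x => ⟨fun hx => ⟨?_, ?_⟩, fun hx => ?_⟩⟩
  · by_contra hc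
    have hp0 : (p + 0, y) ∈ S := hp 0 (by omega) (by omega)
    obtain ⟨i, hi0, his, hi⟩ := h1 (p - 1)
    apply hi
    rcases eq_or_lt_of_le hi0 with h0 | h0
    · exact G.contig hx hp0 (by omega) (by omega)
    · have := hp (i - 1) (by omega) (by omega)
      convert this using 2
      ring
  · by_contra hc
    have hp0 : (p + (s - 1), y) ∈ S := hp (s - 1) (by omega) (by omega)
    obtain ⟨i, hi0, his, hi⟩ := h1 p
    apply hi
    rcases eq_or_lt_of_le his with h0 | h0
    · exact G.contig hp0 hx (by omega) (by omega)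
    · exact hp i (by omega) (by omega)
  · have := hp (x - p) (by omega) (by omega)
    convert this using 2
    ring

lemma R1 (G : Geo S l N a b) {x y p : ℤ} (h : (x, y) ∈ S) (hy : 1 ≤ y)
    (hp : ∀ x', (x', 1) ∈ S → p ≤ x') : (p - 1) * y + 1 ≤ x := by
  have hl := G.hl
  have hy0 : 0 < y := by omega
  have d1 := Int.emod_add_mul_ediv (-x) y
  have d2 := Int.emod_nonneg (-x) hy0.ne'
  have d3 := Int.emod_lt_of_pos (-x) hy0
  obtain ⟨i, hi⟩ : ∃ i, i = -((-x) / y) := ⟨_, rfl⟩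
  have hi' : (-x) / y = -i := by omega
  rw [hi'] at d1
  have e1 : x ≤ i * y := by nlinarith
  have e2 : i * y < x + y := by nlinarith
  have e3 : (i, 1) ∈ S := by
    apply G.fill h (by norm_num) hy0
    · linarith
    · nlinarith
  have e4 := hp i e3
  nlinarith

lemma R1' (G : Geo S l N a b) {x y q : ℤ} (h : (x, y) ∈ S) (hy : 1 ≤ y)
    (hq : ∀ x', (x', 1) ∈ S → x' ≤ q) : (l - 1 - q) * y + 1 ≤ l - x := by
  have hl := G.hl
  have hy0 : 0 < y := by omega
  have d1 := Int.emod_add_mul_ediv (l * y - l + x) y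
  have d2 := Int.emod_nonneg (l * y - l + x) hy0.ne'
  have d3 := Int.emod_lt_of_pos (l * y - l + x) hy0
  obtain ⟨i, hi⟩ : ∃ i, i = (l * y - l + x) / y := ⟨_, rfl⟩
  rw [← hi] at d1
  have e1 : i * y ≤ l * y - l + x := by nlinarith
  have e2 : l * y - l + x < i * y + y := by nlinarith
  have e3 : (i, 1) ∈ S := by
    apply G.fill h (by norm_num) hy0
    · nlinarith
    · nlinarith
  have e4 := hq i e3
  nlinarith

/-- Shearing. -/
lemma shear (G : Geo S l N a b) (c : ℤ) : Geo {p : ℤ × ℤ | (p.1 + c * p.2, p.2) ∈ S} l N a b := by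
  have hdet : ((1, 0) : ℤ × ℤ).1 * ((c, 1) : ℤ × ℤ).2 - ((1, 0) : ℤ × ℤ).2 * ((c, 1) : ℤ × ℤ).1
    = 1 := by simp
  have hpull : {p : ℤ × ℤ | (p.1 + c * p.2, p.2) ∈ S} = pull (0, 0) (1, 0) (c, 1) S := by
    ext p
    simp only [mem_ofPred_eq, pull, fr]
    rw [show ((0 + p.1 * 1 + p.2 * c, 0 + p.1 * 0 + p.2 * 1) : ℤ × ℤ) = (p.1 + c * p.2, p.2) by
      ext
      · simp only; ring
      · simp only; ring]
  constructor
  · rw [hpull]; exact pull_LC G.lc
  · rw [hpull]; exact pull_noChord hdet G.no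
  · simpa using G.o
  · simpa using G.ol
  · exact G.hl
  · intro u v c' w huv h
    rw [hpull] at h
    obtain ⟨u', v', c'', h1, h2⟩ := slab_of_pull hdet huv h
    exact G.bad u' v' c'' w h1 h2
  · intro p hp
    have hp' : (p.1 + c * p.2, p.2) ∈ S := hp
    exact G.top (p.1 + c * p.2, p.2) hp'
  · intro p hp
    have hp' : (p.1 + c * p.2, p.2) ∈ S := hp
    exact G.bot (p.1 + c * p.2, p.2) hp'
  · obtain ⟨x, hx⟩ := G.apx
    refine ⟨x - c * b, ?_⟩
    simp only [mem_ofPred_eq]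
    convert hx using 2
    ring
  · obtain ⟨x, hx⟩ := G.apx'
    refine ⟨x - c * (-a), ?_⟩
    simp only [mem_ofPred_eq]
    convert hx using 2
    ring

/-- Reflection. -/
lemma refl (G : Geo S l N a b) : Geo {p : ℤ × ℤ | (p.1, -p.2) ∈ S} l N b a := by
  have hpull : {p : ℤ × ℤ | (p.1, -p.2) ∈ S} = pull (0, 0) (1, 0) (0, -1) S := by
    ext p
    simp only [mem_ofPred_eq, pull, fr]
    rw [show ((0 + p.1 * 1 + p.2 * 0, 0 + p.1 * 0 + p.2 * -1) : ℤ × ℤ) = (p.1, -p.2) by
      ext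
      · simp only; ring
      · simp only; ring]
  constructor
  · rw [hpull]; exact pull_LC G.lc
  · intro p i j hij hp hq
    apply G.no (p.1, -p.2) i (-j) ?_ hp
    · have hq' : (p.1 + (l + 1) * i, -(p.2 + (l + 1) * j)) ∈ S := hq
      convert hq' using 2
      ring
    · intro h
      apply hij
      simp only [Prod.mk.injEq, neg_eq_zero] at h ⊢
      exact h
  · simpa using G.o
  · simpa using G.ol
  · exact G.hl
  · intro u v c w huv h
    apply G.bad u (-v) c w
    · intro h'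
      apply huv
      simp only [Prod.mk.injEq, neg_eq_zero] at h' ⊢
      exact h'
    · intro p hp
      have := h (p.1, -p.2) (by simpa using hp)
      simp only at this
      constructor <;> linarith [this.1, this.2]
  · intro p hp
    have := G.bot _ hp
    simp only at this
    linarith
  · intro p hp
    have := G.top _ hp
    simp only at this
    linarith
  · obtain ⟨x, hx⟩ := G.apx'
    exact ⟨x, by simpa using hx⟩
  · obtain ⟨x, hx⟩ := G.apx
    exact ⟨x, by simpa using hx⟩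

end Geo

end Pool.Agent.Work.MP_b10815_co_helper58
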