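import Pool.Agent.Work.MP_b10815_co_helper58.Cfg

set_option autoImplicit false

namespace Pool.Agent.Work.MP_b10815_co_helper58

open Set

/-- `S` is covered by the lines `α j x + β j y = γ j`. -/
structure Cover (S : Set (ℤ × ℤ)) (N : ℕ) (α β γ : Fin N → ℝ) : Prop where
  ne : ∀ j, α j ≠ 0 ∨ β j ≠ 0
  cov : ∀ p ∈ S, ∃ j, α j * p.1 + β j * p.2 = γ j

namespace Cover

variable {S : Set (ℤ × ℤ)} {N : ℕ} {α β γ : Fin N → ℝ}

/-- Row `y` is not one of the lines. -/
def Unc (α β γ : Fin N → ℝ) (y : ℤ) : Prop := ∀ j, α j = 0 → β j * y ≠ γ j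

open Classical in
/-- non-horizontal lines -/
noncomputable def tr (α : Fin N → ℝ) : Finset (Fin N) := Finset.univ.filter (fun j => α j ≠ 0)

open Classical in
/-- horizontal lines -/
noncomputable def ho (α : Fin N → ℝ) : Finset (Fin N) := Finset.univ.filter (fun j => α j = 0)

lemma card_add (α : Fin N → ℝ) : (ho α).card + (tr α).card = N := by
  classical
  unfold ho tr
  have := Finset.card_filter_add_card_filter_not (s := (Finset.univ : Finset (Fin N)))
    (fun j => α j = 0)
  simpa using this

/-- A point in an uncovered row lies on a non-horizontal line. -/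
lemma exists_tr (C : Cover S N α β γ) {x y : ℤ} (h : (x, y) ∈ S) (hy : Unc α β γ y) :
    ∃ j ∈ tr α, α j * x + β j * y = γ j := by
  classical
  obtain ⟨j, hj⟩ := C.cov _ h
  refine ⟨j, ?_, hj⟩
  unfold tr
  rw [Finset.mem_filter]
  refine ⟨Finset.mem_univ _, ?_⟩
  intro h0
  apply hy j h0
  simp only at hj
  rw [h0] at hj
  linarith

lemma tr_inj {j : Fin N} (hj : j ∈ tr α) {x x' y : ℤ} (h : α j * x + β j * y = γ j)
    (h' : α j * x' + β j * y = γ j) : x = x' := by
  unfold tr at hj
  rw [Finset.mem_filter] at hj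
  have : α j * x = α j * x' := by linarith
  exact_mod_cast mul_left_cancel₀ hj.2 this

/-- Counting on a row, with a set `T` of admissible lines. -/
lemma row_aux {T : Finset (Fin N)} (hT : T ⊆ tr α) {y : ℤ}
    (h : ∀ x : ℤ, (x, y) ∈ S → ∃ j ∈ T, α j * x + β j * y = γ j) :
    RowLe S y T.card := by
  classical
  by_contra hc
  unfold RowLe at hc
  push Not at hc
  obtain ⟨p, hp⟩ := hc
  have hp' : ∀ i : ℕ, i ∈ Finset.range (T.card + 1) → ∃ j ∈ T,
      α j * ((p + i : ℤ) : ℝ) + β j * y = γ j := by
    intro i hi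
    rw [Finset.mem_range] at hi
    exact h _ (hp i (by omega) (by omega))
  have : Nonempty (Fin N) := ⟨(hp' 0 (by simp)).choose⟩
  choose! f hf1 hf2 using hp'
  have hcard := Finset.card_le_card_of_injOn (s := Finset.range (T.card + 1)) (t := T) f
    (fun i hi => hf1 i hi) (by
      intro i hi i' hi' hff
      have h1 := hf2 i hi
      have h2 := hf2 i' hi'
      rw [← hff] at h2
      have := tr_inj (hT (hf1 i hi)) h1 h2
      omega)
  rw [Finset.card_range] at hcard
  omega

lemma row (C : Cover S N α β γ) {y : ℤ} (hy : Unc α β γ y) : RowLe S y (tr α).card :=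
  row_aux (Finset.Subset.refl _) (fun _ hx => C.exists_tr hx hy)

lemma cnt (C : Cover S N α β γ) (R : Finset ℤ) (hR : ∀ y ∈ R, ¬ Unc α β γ y) :
    R.card ≤ (ho α).card := by
  classical
  have h : ∀ y ∈ R, ∃ j ∈ ho α, β j * y = γ j := by
    intro y hy
    have := hR y hy
    unfold Unc at this
    push Not at this
    obtain ⟨j, hj, hj'⟩ := this
    refine ⟨j, ?_, hj'⟩
    unfold ho
    rw [Finset.mem_filter]
    exact ⟨Finset.mem_univ _, hj⟩
  rcases R.eq_empty_or_nonempty with hRe | ⟨y0, hy0⟩
  · rw [hRe]; simp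
  have : Nonempty (Fin N) := ⟨(h y0 hy0).choose⟩
  choose! f hf1 hf2 using h
  apply Finset.card_le_card_of_injOn f (fun y hy => hf1 y hy)
  intro y hy y' hy' hff
  have h1 := hf2 y hy
  have h2 := hf2 y' hy'
  rw [← hff] at h2
  have hb : β (f y) ≠ 0 := by
    rcases C.ne (f y) with h | h
    · exfalso
      have := hf1 y hy
      unfold ho at this
      rw [Finset.mem_filter] at this
      exact h this.2
    · exact h
  have : β (f y) * y = β (f y) * y' := by linarith
  exact_mod_cast mul_left_cancel₀ hb this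

lemma one (C : Cover S N α β γ) (h1 : (tr α).card = 1) (p q r : ℤ × ℤ) (hp : p ∈ S)
    (hq : q ∈ S) (hr : r ∈ S) (up : Unc α β γ p.2) (uq : Unc α β γ q.2)
    (ur : Unc α β γ r.2) : (p.1 - q.1) * (q.2 - r.2) = (p.2 - q.2) * (q.1 - r.1) := by
  obtain ⟨j, hj⟩ := Finset.card_eq_one.mp h1
  obtain ⟨j1, hj1, e1⟩ := C.exists_tr (x := p.1) (y := p.2) hp up
  obtain ⟨j2, hj2, e2⟩ := C.exists_tr (x := q.1) (y := q.2) hq uq
  obtain ⟨j3, hj3, e3⟩ := C.exists_tr (x := r.1) (y := r.2) hr ur
  have hα : α j ≠ 0 := by
    have : j ∈ tr α := by rw [hj]; exact Finset.mem_singleton_self j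
    unfold tr at this
    rw [Finset.mem_filter] at this
    exact this.2
  rw [hj, Finset.mem_singleton] at hj1 hj2 hj3
  subst hj1
  rw [hj2] at e2
  rw [hj3] at e3
  have h4 : α j1 * (((p.1 - q.1) * (q.2 - r.2) : ℤ) : ℝ) =
      α j1 * (((p.2 - q.2) * (q.1 - r.1) : ℤ) : ℝ) := by
    push_cast
    linear_combination ((q.2 : ℝ) - r.2) * (e1 - e2) - ((p.2 : ℝ) - q.2) * (e2 - e3)
  exact_mod_cast mul_left_cancel₀ hα h4

end Cover

/-- From a normalised cover to a contradiction. -/
theorem no_cover {S : Set (ℤ × ℤ)} {N : ℕ} {α β γ : Fin N → ℝ} (C : Cover S N α β γ)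
    (hfin : S.Finite) {l : ℤ} (lc : LC S) (no : NoChord S (l + 1))
    (o : ((0, 0) : ℤ × ℤ) ∈ S) (ol : ((l, 0) : ℤ × ℤ) ∈ S) (hN : 2 ≤ N) (hNl : (N : ℤ) ≤ l)
    (bad : ∀ u v c w : ℤ, (u, v) ≠ (0, 0) → InSlab S u v c w → 5 * (N : ℤ) < 3 * (w + 1))
    (hflat : ∃ w : ℤ, 5 * (N : ℤ) < 3 * (w + 1) ∧ 3 * w < 4 * (l + 1)) : False := by
  classical
  obtain ⟨pb, hpb, hpbm⟩ := exists_max_image S (fun p => p.2) hfin ⟨_, o⟩
  obtain ⟨pa, hpa, hpam⟩ := exists_min_image S (fun p => p.2) hfin ⟨_, o⟩
  have G : Geo S l N (-pa.2) pb.2 :=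
    { lc := lc, no := no, o := o, ol := ol, hl := by omega, bad := bad
      top := fun p hp => hpbm p hp
      bot := fun p hp => by rw [neg_neg]; exact hpam p hp
      apx := ⟨pb.1, hpb⟩
      apx' := ⟨pa.1, by rw [neg_neg]; exact hpa⟩ }
  have hcard := Cover.card_add α
  have CC : Cfg S l N ((Cover.ho α).card : ℤ) ((Cover.tr α).card : ℤ) (Cover.Unc α β γ)
      (-pa.2) pb.2 :=
    { toGeo := G
      hN := by exact_mod_cast hN
      hNl := hNl
      hkm := by exact_mod_cast hcard
      hm := by positivity
      row := fun y hy => C.row hy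
      cnt := fun R hR => by exact_mod_cast C.cnt R hR
      u0 := by
        intro h0
        obtain ⟨i, hi0, hi1, hi⟩ := C.row h0 0
        apply hi
        rw [zero_add]
        exact G.row0_mem hi0 (by omega)
      col := by
        intro x0 y0 z1 z2 hz hs y hy hne
        -- two points of the column on one line
        have hcov : ∀ s : ℕ, s ∈ Finset.range (N + 1) → ∃ j ∈ (Finset.univ : Finset (Fin N)),
            α j * ((x0 + s * z1 : ℤ) : ℝ) + β j * ((y0 + s * z2 : ℤ) : ℝ) = γ j := by
          intro s hsr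
          rw [Finset.mem_range] at hsr
          obtain ⟨j, hj⟩ := C.cov _ (hs s (by omega) (by omega))
          exact ⟨j, Finset.mem_univ _, hj⟩
        have : Nonempty (Fin N) := ⟨(hcov 0 (by simp)).choose⟩
        choose! f hf1 hf2 using hcov
        obtain ⟨s, hsr, s', hsr', hss, hff⟩ := Finset.exists_ne_map_eq_of_card_lt_of_maps_to
          (s := Finset.range (N + 1)) (t := (Finset.univ : Finset (Fin N))) (f := f)
          (by simp) (fun i hi => hf1 i hi)
        have e1 := hf2 s hsr
        have e2 := hf2 s' hsr'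
        rw [← hff] at e2
        set j := f s with hj
        have hz0 : α j * z1 + β j * z2 = 0 := by
          have hne' : ((s : ℝ) - s') ≠ 0 := by
            intro h; apply hss; exact_mod_cast sub_eq_zero.mp h
          push_cast at e1 e2
          have : ((s : ℝ) - s') * (α j * z1 + β j * z2) = 0 := by linear_combination e1 - e2
          rcases mul_eq_zero.mp this with h | h
          · exact absurd h hne'
          · exact h
        have hline : α j * x0 + β j * y0 = γ j := by
          push_cast at e1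
          linear_combination e1 - (s : ℝ) * hz0
        have hzz : (z2 : ℝ) * z2 = 1 := by exact_mod_cast hz
        have hα : α j ≠ 0 := by
          intro h0
          rw [h0] at hz0
          have : β j = 0 := by
            have h3 : β j * z2 = 0 := by linarith
            have h4 : β j * (z2 * z2) = 0 := by rw [← mul_assoc, h3, zero_mul]
            rwa [hzz, mul_one] at h4
          rcases C.ne j with h | h
          · exact h h0
          · exact h this
        have hjt : j ∈ Cover.tr α := by
          unfold Cover.tr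
          rw [Finset.mem_filter]
          exact ⟨Finset.mem_univ _, hα⟩
        -- line j does not meet S in row y
        have hnot : ∀ x : ℤ, (x, y) ∈ S → α j * x + β j * y ≠ γ j := by
          intro x hx he
          obtain ⟨t, ht⟩ : ∃ t, t = z2 * (y - y0) := ⟨_, rfl⟩
          have hy' : y = y0 + t * z2 := by rw [ht]; linear_combination (-(y - y0)) * hz
          have hx' : x = x0 + t * z1 := by
            have : α j * x = α j * ((x0 + t * z1 : ℤ) : ℝ) := by
              rw [hy'] at he
              push_cast at he ⊢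
              linear_combination he - hline - (t : ℝ) * hz0
            exact_mod_cast mul_left_cancel₀ hα this
          have hmt : (x0 + t * z1, y0 + t * z2) ∈ S := by rw [← hx', ← hy']; exact hx
          have hz12 : (z1, z2) ≠ (0, 0) := by
            intro h
            rw [Prod.mk.injEq] at h
            rw [h.2] at hz
            norm_num at hz
          rcases lt_or_ge t 0 with h | h
          · -- t < 0
            have hm0 := hs l (by omega) le_rfl
            have hmid : (x0 + (t + (l + 1)) * z1, y0 + (t + (l + 1)) * z2) ∈ S := by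
              apply lc.three (x0 + (t + (l + 1)) * z1, y0 + (t + (l + 1)) * z2)
                (l - (t + (l + 1))) (l + 1) 0 hmt hm0 hm0 (by omega) (by omega) (by omega)
                (by omega)
              · simp only; ring
              · simp only; ring
            apply no _ z1 z2 hz12 hmt
            convert hmid using 2
            · ring
            · ring
          · rcases le_or_gt t l with h' | h'
            · exact hne t h h' hy'.symm
            · have hm0 := hs 0 le_rfl (by omega)
              have hmid : (x0 + (l + 1) * z1, y0 + (l + 1) * z2) ∈ S := by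
                apply lc.three (x0 + (l + 1) * z1, y0 + (l + 1) * z2) (t - (l + 1)) (l + 1) 0
                  hm0 hmt hmt (by omega) (by omega) (by omega) (by omega)
                · simp only; ring
                · simp only; ring
              apply no _ z1 z2 hz12 hm0
              convert hmid using 2
              · ring
              · ring
        have hr := Cover.row_aux (S := S) (α := α) (β := β) (γ := γ)
          (T := (Cover.tr α).erase j) (Finset.erase_subset _ _) (y := y) (by
            intro x hx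
            obtain ⟨j', hj', he⟩ := C.exists_tr hx hy
            refine ⟨j', ?_, he⟩
            rw [Finset.mem_erase]
            refine ⟨?_, hj'⟩
            rintro rfl
            exact hnot x hx he)
        rw [Finset.card_erase_of_mem hjt] at hr
        have hpos : 0 < (Cover.tr α).card := Finset.card_pos.mpr ⟨j, hjt⟩
        have e : (((Cover.tr α).card - 1 : ℕ) : ℤ) = (Cover.tr α).card - 1 := by omega
        rwa [e] at hr
      one := fun h p q r hp hq hr up uq ur =>
        C.one (by exact_mod_cast h) p q r hp hq hr up uq ur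
      flat := hflat }
  exact CC.false

/-- Transport of a cover to a frame. -/
lemma Cover.pull {S : Set (ℤ × ℤ)} {N : ℕ} {α β γ : Fin N → ℝ} (C : Cover S N α β γ)
    {o e f : ℤ × ℤ} (hdet : e.1 * f.2 - e.2 * f.1 = 1) :
    Cover (pull o e f S) N (fun j => α j * e.1 + β j * e.2) (fun j => α j * f.1 + β j * f.2)
      (fun j => γ j - (α j * o.1 + β j * o.2)) where
  ne := by
    intro j
    by_contra h
    push Not at h
    obtain ⟨h1, h2⟩ := h
    have hd : (e.1 : ℝ) * f.2 - e.2 * f.1 = 1 := by exact_mod_cast hdet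
    rcases C.ne j with h3 | h3
    · apply h3
      linear_combination (f.2 : ℝ) * h1 - (e.2 : ℝ) * h2 - α j * hd
    · apply h3
      linear_combination (e.1 : ℝ) * h2 - (f.1 : ℝ) * h1 - β j * hd
  cov := by
    intro p hp
    obtain ⟨j, hj⟩ := C.cov _ hp
    refine ⟨j, ?_⟩
    unfold fr at hj
    simp only at hj
    push_cast at hj
    linear_combination hj

/-- The main combinatorial theorem: a finite lattice-convex set covered by `N ≥ 2` lines lies on
at most `5N/3` parallel lines. -/
theorem exists_slab {S : Set (ℤ × ℤ)} {N : ℕ} {α β γ : Fin N → ℝ} (C : Cover S N α β γ)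
    (hfin : S.Finite) (hne : S.Nonempty) (lc : LC S) (hN : 2 ≤ N) :
    ∃ u v c w : ℤ, (u, v) ≠ (0, 0) ∧ InSlab S u v c w ∧ 3 * (w + 1) ≤ 5 * (N : ℤ) := by
  classical
  by_contra hcon
  push Not at hcon
  have bad : ∀ u v c w : ℤ, (u, v) ≠ (0, 0) → InSlab S u v c w →
      5 * (N : ℤ) < 3 * (w + 1) := hcon
  -- longest chord
  obtain ⟨P, hP⟩ : ∃ P : ℕ → Prop, ∀ n, P n ↔ ∃ p ∈ S, ∃ i j : ℤ, (i, j) ≠ (0, 0) ∧
      (p.1 + n * i, p.2 + n * j) ∈ S := ⟨_, fun n => Iff.rfl⟩
  have hP0 : P 0 := by
    rw [hP]
    obtain ⟨p, hp⟩ := hne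
    refine ⟨p, hp, 1, 0, by simp, ?_⟩
    simpa using hp
  obtain ⟨p1, hp1, hm1⟩ := exists_max_image S (fun p => |p.1| + |p.2|) hfin hne
  set B := |p1.1| + |p1.2| with hB
  have hB0 : 0 ≤ B := by positivity
  have hbound : ∀ n : ℕ, P n → n ≤ (2 * B).toNat := by
    intro n hn
    rw [hP] at hn
    obtain ⟨p, hp, i, j, hij, hq⟩ := hn
    have h1 := hm1 p hp
    have h2 := hm1 _ hq
    simp only at h1 h2
    have h3 : |(n : ℤ) * i| + |(n : ℤ) * j| ≤ 2 * B := by
      have a1 : |(n : ℤ) * i| ≤ |p.1 + n * i| + |p.1| := by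
        have := abs_sub (p.1 + n * i) p.1
        rwa [add_sub_cancel_left] at this
      have a2 : |(n : ℤ) * j| ≤ |p.2 + n * j| + |p.2| := by
        have := abs_sub (p.2 + n * j) p.2
        rwa [add_sub_cancel_left] at this
      linarith
    rw [abs_mul, abs_mul, Nat.abs_cast] at h3
    have h4 : 1 ≤ |i| + |j| := by
      by_contra h
      apply hij
      have hi := abs_nonneg i
      have hj := abs_nonneg j
      have : |i| = 0 := by omega
      have : |j| = 0 := by omega
      rw [Prod.mk.injEq]
      constructor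
      · apply abs_eq_zero.mp; omega
      · apply abs_eq_zero.mp; omega
    have h5 : (n : ℤ) * 1 ≤ n * (|i| + |j|) := mul_le_mul_of_nonneg_left h4 (by positivity)
    have h6 : (n : ℤ) ≤ 2 * B := by linarith
    omega
  obtain ⟨l, hl⟩ : ∃ l, l = Nat.findGreatest P (2 * B).toNat := ⟨_, rfl⟩
  have hPl : P l := by
    rw [hl]; exact Nat.findGreatest_spec (Nat.zero_le _) hP0
  have hmax : ∀ n, P n → n ≤ l := by
    intro n hn
    rw [hl]
    exact Nat.le_findGreatest (hbound n hn) hn
  have hno : NoChord S ((l : ℤ) + 1) := by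
    intro p i j hij hp hq
    have : P (l + 1) := by
      rw [hP]
      refine ⟨p, hp, i, j, hij, ?_⟩
      push_cast
      exact hq
    have := hmax _ this
    omega
  obtain ⟨u, v, c, w, huv, hs, hw⟩ := flat hfin hne lc (by omega) hno
  have hw' := bad u v c w huv hs
  have hNl : (N : ℤ) ≤ l := by
    by_contra h
    push Not at h
    omega
  -- the frame
  rw [hP] at hPl
  obtain ⟨p, hp, i, j, hij, hq⟩ := hPl
  have hgcd : Int.gcd i j = 1 := by
    by_contra hg
    have hg0 : Int.gcd i j ≠ 0 := by
      rw [Ne, Int.gcd_eq_zero_iff]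
      rintro ⟨rfl, rfl⟩
      exact hij rfl
    obtain ⟨i', hi'⟩ : ((Int.gcd i j : ℕ) : ℤ) ∣ i := Int.gcd_dvd_left i j
    obtain ⟨j', hj'⟩ : ((Int.gcd i j : ℕ) : ℤ) ∣ j := Int.gcd_dvd_right i j
    have hij' : (i', j') ≠ (0, 0) := by
      intro h
      rw [Prod.mk.injEq] at h
      apply hij
      rw [hi', hj', h.1, h.2]; simp
    have : P (l * Int.gcd i j) := by
      rw [hP]
      refine ⟨p, hp, i', j', hij', ?_⟩
      convert hq using 2
      · push_cast; linear_combination (-(l : ℤ)) * hi'
      · push_cast; linear_combination (-(l : ℤ)) * hj'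
    have h1 := hmax _ this
    have h2 : 2 ≤ Int.gcd i j := by omega
    have h3 : l * 2 ≤ l * Int.gcd i j := Nat.mul_le_mul_left l h2
    omega
  obtain ⟨s, t, hst⟩ : ∃ s t : ℤ, i * s + j * t = 1 := by
    have := Int.gcd_eq_gcd_ab i j
    rw [hgcd] at this
    exact ⟨_, _, by exact_mod_cast this.symm⟩
  have hdet : ((i, j) : ℤ × ℤ).1 * ((-t, s) : ℤ × ℤ).2 -
      ((i, j) : ℤ × ℤ).2 * ((-t, s) : ℤ × ℤ).1 = 1 := by
    simp only; linear_combination hst
  refine no_cover (C.pull (o := p) hdet) (pull_finite hdet hfin) (l := l) (pull_LC lc)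
    (pull_noChord hdet hno) ?_ ?_ hN hNl ?_ ⟨w, hw', hw⟩
  · change fr p (i, j) (-t, s) (0, 0) ∈ S
    unfold fr
    simpa using hp
  · change fr p (i, j) (-t, s) (l, 0) ∈ S
    unfold fr
    simpa using hq
  · intro u v c w huv h
    obtain ⟨u', v', c', h1, h2⟩ := slab_of_pull hdet huv h
    exact bad u' v' c' w h1 h2

end Pool.Agent.Work.MP_b10815_co_helper58
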