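import Pool.Agent.Work.MP_b10815_co_helper58.Lines
import Pool.Agent.Work.MP_b10815_co.Small

set_option autoImplicit false

namespace Pool.Agent.Work.MP_b10815_co_helper58

open Set Pool.Agent.Work.MP_b10815_co

/-- The integer points of a planar set, as a subset of `ℤ × ℤ`. -/
def zset (K : Set (Fin 2 → ℝ)) : Set (ℤ × ℤ) := {p | (![(p.1 : ℝ), (p.2 : ℝ)] : Fin 2 → ℝ) ∈ K}

lemma zset_finite {K : Set (Fin 2 → ℝ)} (hK : IsCompact K) : (zset K).Finite := by
  obtain ⟨R, hR⟩ := hK.isBounded.exists_norm_le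
  apply Set.Finite.subset ((Set.finite_Icc (-⌈R⌉) ⌈R⌉).prod (Set.finite_Icc (-⌈R⌉) ⌈R⌉))
  rintro ⟨x, y⟩ hp
  have h1 := hR _ hp
  have h2 : |(x : ℝ)| ≤ R := by
    have := norm_le_pi_norm (![(x : ℝ), (y : ℝ)] : Fin 2 → ℝ) 0
    simp only [Matrix.cons_val_zero, Real.norm_eq_abs] at this
    exact this.trans h1
  have h3 : |(y : ℝ)| ≤ R := by
    have := norm_le_pi_norm (![(x : ℝ), (y : ℝ)] : Fin 2 → ℝ) 1
    simp only [Matrix.cons_val_one, Real.norm_eq_abs] at this
    exact this.trans h1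
  have h4 := abs_le.mp h2
  have h5 := abs_le.mp h3
  have h6 := Int.le_ceil R
  simp only [Set.mem_prod, Set.mem_Icc]
  refine ⟨⟨?_, ?_⟩, ?_, ?_⟩
  · have : (-⌈R⌉ : ℝ) ≤ x := by linarith
    exact_mod_cast this
  · have : (x : ℝ) ≤ ⌈R⌉ := by linarith
    exact_mod_cast this
  · have : (-⌈R⌉ : ℝ) ≤ y := by linarith
    exact_mod_cast this
  · have : (y : ℝ) ≤ ⌈R⌉ := by linarith
    exact_mod_cast this

lemma zset_LC {K : Set (Fin 2 → ℝ)} (hK : Convex ℝ K) : LC (zset K) := by
  intro z hz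
  have hconv : Convex ℝ {p : ℝ × ℝ | (![p.1, p.2] : Fin 2 → ℝ) ∈ K} := by
    intro x hx y hy a b ha hb hab
    have := hK hx hy ha hb hab
    simp only [mem_ofPred_eq]
    convert this using 1
    ext i
    fin_cases i <;> simp
  have hsub : emb '' (zset K) ⊆ {p : ℝ × ℝ | (![p.1, p.2] : Fin 2 → ℝ) ∈ K} := by
    rintro _ ⟨p, hp, rfl⟩
    exact hp
  exact convexHull_min hsub hconv hz

lemma mem_zset {K : Set (Fin 2 → ℝ)} {x : Fin 2 → ℝ} (hx : x ∈ integerPoints K) :
    ∃ p ∈ zset K, x = ![(p.1 : ℝ), (p.2 : ℝ)] := by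
  obtain ⟨hxK, hm⟩ := hx
  obtain ⟨a, ha⟩ := hm 0
  obtain ⟨b, hb⟩ := hm 1
  have e : x = ![(a : ℝ), (b : ℝ)] := by
    ext i
    fin_cases i
    · simpa using ha
    · simpa using hb
  refine ⟨(a, b), ?_, e⟩
  change (![(a : ℝ), (b : ℝ)] : Fin 2 → ℝ) ∈ K
  rwa [← e]

theorem upper_plane : Admissible 2 (5 / 3) := by
  refine ⟨by norm_num, ?_⟩
  intro K hKc hK _ N hN hcov
  rcases eq_or_lt_of_le hN with h1 | h1
  · -- one line
    subst h1
    obtain ⟨u, b, hu, hcov⟩ := hcov
    refine ⟨1, by norm_num, u 0, b, hu 0, ?_⟩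
    intro x hx
    have := hcov hx
    rw [mem_iUnion] at this ⊢
    obtain ⟨j, hj⟩ := this
    have hj0 : j = 0 := Subsingleton.elim _ _
    subst hj0
    exact ⟨0, hj⟩
  · obtain ⟨u, b, hu, hcov⟩ := hcov
    by_cases hne : (zset K).Nonempty
    · have C : Cover (zset K) N (fun j => u j 0) (fun j => u j 1) b := by
        constructor
        · intro j
          by_contra h
          push Not at h
          apply hu j
          ext i
          fin_cases i
          · exact h.1
          · exact h.2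
        · intro p hp
          have hx : (![(p.1 : ℝ), (p.2 : ℝ)] : Fin 2 → ℝ) ∈ integerPoints K := by
            refine ⟨hp, ?_⟩
            intro i
            fin_cases i
            · exact ⟨p.1, rfl⟩
            · exact ⟨p.2, rfl⟩
          have := hcov hx
          rw [mem_iUnion] at this
          obtain ⟨j, hj⟩ := this
          refine ⟨j, ?_⟩
          unfold hyperplane at hj
          rw [mem_ofPred_eq, Fin.sum_univ_two] at hj
          simpa using hj
      obtain ⟨s, t, c, w, hst, hs, hw⟩ := exists_slab C (zset_finite hK) hne (zset_LC hKc)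
        (by omega)
      have hw0 : 0 ≤ w := by
        obtain ⟨p, hp⟩ := hne
        have := hs p hp
        omega
      refine ⟨(w + 1).toNat, ?_, ![(s : ℝ), (t : ℝ)], fun j => (c : ℝ) + (j : ℕ), ?_, ?_⟩
      · have h2 : ((w + 1).toNat : ℤ) = w + 1 := Int.toNat_of_nonneg (by omega)
        have h3 : 3 * ((w + 1).toNat : ℤ) ≤ 5 * (N : ℤ) := by rw [h2]; exact hw
        have h4 : 3 * ((w + 1).toNat : ℝ) ≤ 5 * (N : ℝ) := by exact_mod_cast h3
        linarith
      · intro h
        apply hst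
        have h2 := congrFun h 0
        have h3 := congrFun h 1
        simp only [Matrix.cons_val_zero, Matrix.cons_val_one, Pi.zero_apply, Int.cast_eq_zero]
          at h2 h3
        rw [h2, h3]
      · intro x hx
        obtain ⟨p, hp, rfl⟩ := mem_zset hx
        have hsp := hs p hp
        rw [mem_iUnion]
        refine ⟨⟨(s * p.1 + t * p.2 - c).toNat, by omega⟩, ?_⟩
        unfold hyperplane
        rw [mem_ofPred_eq, Fin.sum_univ_two]
        have h2 : ((s * p.1 + t * p.2 - c).toNat : ℤ) = s * p.1 + t * p.2 - c :=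
          Int.toNat_of_nonneg (by omega)
        have h3 : (((s * p.1 + t * p.2 - c).toNat : ℕ) : ℝ) = s * p.1 + t * p.2 - c := by
          exact_mod_cast h2
        simp only [Matrix.cons_val_zero, Matrix.cons_val_one]
        rw [h3]
        ring
    · -- no integer points
      refine ⟨0, by simp, ![1, 0], Fin.elim0, ?_, ?_⟩
      · intro h
        have := congrFun h 0
        simp at this
      · intro x hx
        obtain ⟨p, hp, _⟩ := mem_zset hx
        exact absurd ⟨p, hp⟩ hne

lemma admissible_mono {d : ℕ} {c c' : ℝ} (h : c ≤ c') (hc : Admissible d c) :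
    Admissible d c' := by
  refine ⟨hc.1.trans_le h, ?_⟩
  intro K h1 h2 h3 N hN hcov
  obtain ⟨M, hM, hM'⟩ := hc.2 K h1 h2 h3 N hN hcov
  exact ⟨M, hM.trans (mul_le_mul_of_nonneg_right h (by positivity)), hM'⟩

/-- `c(2) = 5/3`. -/
theorem plane_exact (c : ℝ) : Admissible 2 c ↔ 5 / 3 ≤ c :=
  ⟨lower_plane c, fun h => admissible_mono h upper_plane⟩

end Pool.Agent.Work.MP_b10815_co_helper58
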